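import Pool.Agent.W280.PE.Seq

set_option autoImplicit false
set_option maxHeartbeats 4000000

/-!
The inequalities for extended sequences.
-/

namespace Pool.Agent.W280.PE

open Finset Pool.Agent.W280.PC

/-- `X` is the extended sequence of the residues `a * e l`. -/
structure SeqOf {r : ℕ} (N : ℕ) (e : Fin r → ℤ) (a : ℤ) (X : ℤ → ℤ) : Prop where
  mono : ∀ i j, i ≤ j → X i ≤ X j
  per : ∀ i q, X (i + r * q) = X i + N * q
  res : ∃ σ : Equiv.Perm (Fin r), ∀ l : Fin r, (N : ℤ) ∣ X ((l : ℕ) : ℤ) - a * e (σ l)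

/-- inequalities from single solutions -/
def I1 (r : ℤ) (X Y C : ℤ → ℤ) : Prop := ∀ i k l, i + k + l ≤ r - 1 → X i + Y k + C l ≤ 0

/-- inequalities from pencils of solutions -/
def I2 (r : ℤ) (X Y C : ℤ → ℤ) : Prop := ∀ i i' k k' l l', i < i' → i' < i + r → k < k' →
  k' < k + r → l < l' → l' < l + r → i + i' + k + k' + l + l' ≤ 2 * r - 1 →
  i' + k + l ≤ r - 1 → i + k' + l ≤ r - 1 → i + k + l' ≤ r - 1 → i' + k' + l' ≤ 2 * r - 1 →
  X i + X i' + Y k + Y k' + C l + C l' ≤ 0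

def J1 (r : ℤ) (X Y C : ℤ → ℤ) : Prop := ∀ i k l, 2 * r - 2 ≤ i + k + l → 0 ≤ X i + Y k + C l

def J2 (r : ℤ) (X Y C : ℤ → ℤ) : Prop := ∀ i i' k k' l l', i < i' → i' < i + r → k < k' →
  k' < k + r → l < l' → l' < l + r → 4 * r - 5 ≤ i + i' + k + k' + l + l' →
  2 * r - 2 ≤ i + k' + l' → 2 * r - 2 ≤ i' + k + l' → 2 * r - 2 ≤ i' + k' + l →
  r - 2 ≤ i + k + l →
  0 ≤ X i + X i' + Y k + Y k' + C l + C l'

/-- The data attached to a residue class `a`. -/
structure Good {r : ℕ} (N : ℕ) (e1 e2 e3 : Fin r → ℤ) (a : ℤ) (X Y C : ℤ → ℤ) : Prop where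
  sX : SeqOf N e1 a X
  sY : SeqOf N e2 a Y
  sC : SeqOf N e3 a C
  sum : ∑ l : Fin r, X ((l : ℕ) : ℤ) + ∑ l : Fin r, Y ((l : ℕ) : ℤ) +
    ∑ l : Fin r, C ((l : ℕ) : ℤ) = 0
  i1 : I1 r X Y C
  j1 : J1 r X Y C
  i2 : I2 r X Y C
  j2 : J2 r X Y C

lemma I1.rot {r : ℤ} {X Y C : ℤ → ℤ} (h : I1 r X Y C) : I1 r Y C X := by
  intro i k l h1
  have := h l i k (by linarith)
  linarith

lemma J1.rot {r : ℤ} {X Y C : ℤ → ℤ} (h : J1 r X Y C) : J1 r Y C X := by
  intro i k l h1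
  have := h l i k (by linarith)
  linarith

lemma I2.rot {r : ℤ} {X Y C : ℤ → ℤ} (h : I2 r X Y C) : I2 r Y C X := by
  intro i i' k k' l l' h1 h2 h3 h4 h5 h6 h7 h8 h9 h10 h11
  have := h l l' i i' k k' h5 h6 h1 h2 h3 h4 (by linarith) (by linarith) (by linarith)
    (by linarith) (by linarith)
  linarith

lemma J2.rot {r : ℤ} {X Y C : ℤ → ℤ} (h : J2 r X Y C) : J2 r Y C X := by
  intro i i' k k' l l' h1 h2 h3 h4 h5 h6 h7 h8 h9 h10 h11
  have := h l l' i i' k k' h5 h6 h1 h2 h3 h4 (by linarith) (by linarith) (by linarith)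
    (by linarith) (by linarith)
  linarith

lemma Good.rot {r : ℕ} {N : ℕ} {e1 e2 e3 : Fin r → ℤ} {a : ℤ} {X Y C : ℤ → ℤ}
    (h : Good N e1 e2 e3 a X Y C) : Good N e2 e3 e1 a Y C X :=
  ⟨h.sY, h.sC, h.sX, by linarith [h.sum], h.i1.rot, h.j1.rot, h.i2.rot, h.j2.rot⟩

/-- Extension of the inequalities for pencils to all windows. -/
lemma window {r N : ℤ} (hr : 0 < r) {X Y C : ℤ → ℤ} (hX : ∀ i q, X (i + r * q) = X i + N * q)
    (hC : ∀ i q, C (i + r * q) = C i + N * q) (K : ℤ → ℤ → Prop)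
    (h : ∀ i i' k k' l l', 0 ≤ i → i < i' → i' < r → K k k' → l < l' → l' < l + r →
      i + i' + k + k' + l + l' ≤ 2 * r - 1 →
      i' + k + l ≤ r - 1 → i + k' + l ≤ r - 1 → i + k + l' ≤ r - 1 → i' + k' + l' ≤ 2 * r - 1 →
      X i + X i' + Y k + Y k' + C l + C l' ≤ 0) :
    ∀ i i' k k' l l', i < i' → i' < i + r → K k k' → l < l' → l' < l + r →
      i + i' + k + k' + l + l' ≤ 2 * r - 1 →
      i' + k + l ≤ r - 1 → i + k' + l ≤ r - 1 → i + k + l' ≤ r - 1 → i' + k' + l' ≤ 2 * r - 1 →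
      X i + X i' + Y k + Y k' + C l + C l' ≤ 0 := by
  intro i i' k k' l l' h1 h2 h3 h4 h5 h6 h7 h8 h9 h10
  set u := i / r with hu
  have hi : i = r * u + i % r := (Int.mul_ediv_add_emod i r).symm
  have hi0 := Int.emod_nonneg i hr.ne'
  have hi1 := Int.emod_lt_of_pos i hr
  set ru := r * u with hru
  have eX : ∀ j, X j = X (j - ru) + N * u := by
    intro j
    have := hX (j - ru) u
    rwa [← hru, sub_add_cancel] at this
  have eC : ∀ j, C j = C (j + ru) - N * u := by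
    intro j
    have := hC j u
    rw [← hru] at this
    linarith
  by_cases hc : i' - ru < r
  · have := h (i - ru) (i' - ru) k k' (l + ru) (l' + ru) (by linarith) (by linarith) hc h3
      (by linarith) (by linarith) (by linarith) (by linarith) (by linarith) (by linarith)
      (by linarith)
    rw [eX i, eX i', eC l, eC l']
    linarith
  · push Not at hc
    have e1 : X (i' - ru) = X (i' - ru - r) + N := by
      have := hX (i' - ru - r) 1
      rw [mul_one, mul_one, sub_add_cancel] at this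
      exact this
    have e2 : C (l + ru + r) = C (l + ru) + N := by
      have := hC (l + ru) 1
      rw [mul_one, mul_one] at this
      exact this
    have := h (i' - ru - r) (i - ru) k k' (l' + ru) (l + ru + r) (by linarith) (by linarith)
      (by linarith) h3 (by linarith) (by linarith) (by linarith) (by linarith) (by linarith)
      (by linarith) (by linarith)
    rw [eX i, eX i', eC l, eC l', e1]
    rw [e2] at this
    linarith

lemma window2 {r N : ℤ} (hr : 0 < r) {X Y C : ℤ → ℤ} (hX : ∀ i q, X (i + r * q) = X i + N * q)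
    (hY : ∀ i q, Y (i + r * q) = Y i + N * q)
    (hC : ∀ i q, C (i + r * q) = C i + N * q)
    (h : ∀ i i' k k' l l', 0 ≤ i → i < i' → i' < r → 0 ≤ k → k < k' → k' < r → l < l' →
      l' < l + r → i + i' + k + k' + l + l' ≤ 2 * r - 1 →
      i' + k + l ≤ r - 1 → i + k' + l ≤ r - 1 → i + k + l' ≤ r - 1 → i' + k' + l' ≤ 2 * r - 1 →
      X i + X i' + Y k + Y k' + C l + C l' ≤ 0) : I2 r X Y C := by
  have s1 := window hr hX hC (Y := Y) (fun k k' => 0 ≤ k ∧ k < k' ∧ k' < r)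
    (fun i i' k k' l l' h1 h2 h3 h4 h5 h6 h7 h8 h9 h10 h11 =>
      h i i' k k' l l' h1 h2 h3 h4.1 h4.2.1 h4.2.2 h5 h6 h7 h8 h9 h10 h11)
  have s2 := window hr hY hC (Y := X) (fun k k' => k < k' ∧ k' < k + r)
    (fun i i' k k' l l' h1 h2 h3 h4 h5 h6 h7 h8 h9 h10 h11 => by
      have := s1 k k' i i' l l' h4.1 h4.2 ⟨h1, h2, h3⟩ h5 h6 (by linarith) (by linarith)
        (by linarith) (by linarith) (by linarith)
      linarith)
  intro i i' k k' l l' h1 h2 h3 h4 h5 h6 h7 h8 h9 h10 h11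
  have := s2 k k' i i' l l' h3 h4 ⟨h1, h2⟩ h5 h6 (by linarith) (by linarith) (by linarith)
    (by linarith) (by linarith)
  linarith

end Pool.Agent.W280.PE
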