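import Pool.Agent.W280.PE.Psi7
import Pool.Agent.W280.PE.Defs
import Pool.Agent.W280.PC.Average

set_option autoImplicit false
set_option maxHeartbeats 4000000

/-!
The arithmetic theorem for rank four.
-/

namespace Pool.Agent.W280.PE

open Finset Pool.Agent.W280.PC

section

variable {r : ℕ} [NeZero r] {N : ℕ} {e : Fin r → ℤ} {a : ℤ} {X : ℤ → ℤ}

lemma SeqOf.eq_ext (h : SeqOf N e a X) : X = ext (N : ℤ) (fun l : Fin r => X ((l : ℕ) : ℤ)) := by
  ext i
  unfold ext
  dsimp only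
  rw [im_val]
  have := h.per (i % r) (i / r)
  rw [show i % r + r * (i / r) = i by linarith [Int.mul_ediv_add_emod i r]] at this
  exact this

omit [NeZero r] in
lemma SeqOf.srt (h : SeqOf N e a X) : Srt (N : ℤ) (fun l : Fin r => X ((l : ℕ) : ℤ)) := by
  intro l l'
  constructor
  · intro hl
    exact h.mono _ _ (by exact_mod_cast hl)
  · have h1 := h.per ((l : ℕ) : ℤ) 1
    have h2 := h.mono ((l' : ℕ) : ℤ) (((l : ℕ) : ℤ) + r * 1) (by have := l'.isLt; omega)
    dsimp only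
    linarith

/-- Blocks of equal terms. -/
lemma SeqOf.align (hN : 0 < N) (h : SeqOf N e a X) {d : ℕ} (hd : 0 < d) {T0 : ℤ} {g : ℤ → ℤ}
    (hg : ∀ v, ∑ l, (v - a * e l) / (N : ℤ) = d * g v + T0) :
    ∃ s : ℤ, ∀ t i j : ℤ, 0 ≤ i → i < d → 0 ≤ j → j < d → X (s + d * t + i) = X (s + d * t + j) := by
  have hN' : (0 : ℤ) < N := by exact_mod_cast hN
  obtain ⟨σ, hσ⟩ := h.res
  choose t ht using hσ
  have h1 := ext_block hN' h.srt hd (T0 := T0 - ∑ l, t l) (g := g) (by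
    intro v
    have h2 : ∀ l : Fin r, (v - X ((l : ℕ) : ℤ)) / (N : ℤ) = (v - a * e (σ l)) / N - t l := by
      intro l
      have h3 : v - X ((l : ℕ) : ℤ) = (v - a * e (σ l)) + N * (-t l) := by linarith [ht l]
      rw [h3, Int.add_mul_ediv_left _ _ hN'.ne']
      ring
    simp only [h2]
    rw [Finset.sum_sub_distrib, Equiv.sum_comp σ (fun l => (v - a * e l) / (N : ℤ)), hg v]
    ring)
  rw [← h.eq_ext] at h1
  exact h1

/-- shifting a sequence -/
lemma im_add_injective {r : ℕ} [NeZero r] (c : ℤ) :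
    Function.Injective (fun l : Fin r => im r (c + (l : ℕ))) := by
  intro l l' h
  dsimp only at h
  have hr : (0 : ℤ) < r := by exact_mod_cast Nat.pos_of_ne_zero (NeZero.ne r)
  have h1 : (c + ((l : ℕ) : ℤ)) % r = (c + ((l' : ℕ) : ℤ)) % r := by
    rw [← im_val, ← im_val, h]
  have h2 : (r : ℤ) ∣ (c + ((l' : ℕ) : ℤ)) - (c + ((l : ℕ) : ℤ)) := Int.ModEq.dvd h1
  have h3 : (r : ℤ) ∣ ((l' : ℕ) : ℤ) - ((l : ℕ) : ℤ) := by
    have : ((l' : ℕ) : ℤ) - ((l : ℕ) : ℤ) = (c + ((l' : ℕ) : ℤ)) - (c + ((l : ℕ) : ℤ)) := by ring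
    rw [this]; exact h2
  have h4 : |((l' : ℕ) : ℤ) - ((l : ℕ) : ℤ)| < r := by
    rw [abs_lt]
    have := l.isLt
    have := l'.isLt
    constructor <;> omega
  have h5 := Int.eq_zero_of_abs_lt_dvd h3 h4
  apply Fin.ext
  omega

lemma SeqOf.shift (h : SeqOf N e a X) (c : ℤ) : SeqOf N e a (fun i => X (c + i)) where
  mono i j hij := h.mono _ _ (by linarith)
  per i q := by
    rw [← add_assoc]
    exact h.per _ _
  res := by
    obtain ⟨σ, hσ⟩ := h.res
    refine ⟨(Equiv.ofBijective _ (Finite.injective_iff_bijective.mp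
      (im_add_injective (r := r) c))).trans σ, fun l => ?_⟩
    simp only [Equiv.trans_apply, Equiv.ofBijective_apply]
    have h1 := hσ (im r (c + (l : ℕ)))
    have h2 := h.per (((im r (c + (l : ℕ)) : Fin r) : ℕ) : ℤ) ((c + (l : ℕ)) / r)
    have h3 : (((im r (c + (l : ℕ)) : Fin r) : ℕ) : ℤ) + r * ((c + (l : ℕ)) / r) = c + (l : ℕ) := by
      rw [im_val]
      linarith [Int.mul_ediv_add_emod (c + ((l : ℕ) : ℤ)) r]
    rw [h3] at h2
    rw [h2]
    have h5 : X (((im r (c + (l : ℕ)) : Fin r) : ℕ) : ℤ) + N * ((c + (l : ℕ)) / r) -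
        a * e (σ (im r (c + (l : ℕ)))) =
        (X (((im r (c + (l : ℕ)) : Fin r) : ℕ) : ℤ) - a * e (σ (im r (c + (l : ℕ))))) +
          N * ((c + (l : ℕ)) / r) := by ring
    rw [h5]
    exact dvd_add h1 (Dvd.intro _ rfl)

omit [NeZero r] in
lemma SeqOf.sum_shift (h : SeqOf N e a X) (c : ℤ) :
    ∑ l : Fin r, X (c + ((l : ℕ) : ℤ)) = ∑ l : Fin r, X ((l : ℕ) : ℤ) + N * c := by
  have hstep : ∀ c : ℤ, ∑ l ∈ Finset.range r, X (c + 1 + (l : ℕ)) =
      ∑ l ∈ Finset.range r, X (c + (l : ℕ)) + N := by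
    intro c
    have h2 := Finset.sum_range_succ' (fun l : ℕ => X (c + (l : ℤ))) r
    rw [Finset.sum_range_succ] at h2
    have h3 : X (c + (r : ℤ)) = X (c + ((0 : ℕ) : ℤ)) + N := by
      have h4 := h.per c 1
      rw [mul_one, mul_one] at h4
      simpa using h4
    rw [h3] at h2
    have h5 : ∑ k ∈ Finset.range r, X (c + ((k + 1 : ℕ) : ℤ)) =
        ∑ l ∈ Finset.range r, X (c + 1 + (l : ℕ)) := by
      refine Finset.sum_congr rfl fun l _ => ?_
      congr 1
      push_cast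
      ring
    rw [h5] at h2
    linarith
  have h6 : ∀ t : ℤ, ∑ l ∈ Finset.range r, X (t + (l : ℕ)) =
      ∑ l ∈ Finset.range r, X ((l : ℕ) : ℤ) + N * t := by
    intro t
    induction t using Int.induction_on with
    | zero => simp
    | succ i ih =>
      have := hstep i
      rw [ih] at this
      rw [this]
      ring
    | pred i ih =>
      have := hstep (-i - 1)
      have h7 : -(i : ℤ) - 1 + 1 = -i := by ring
      rw [h7, ih] at this
      linarith
  rw [Fin.sum_univ_eq_sum_range (fun l : ℕ => X (c + (l : ℤ))) r,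
    Fin.sum_univ_eq_sum_range (fun l : ℕ => X ((l : ℤ))) r]
  exact h6 c

end

lemma Good.shift {r : ℕ} [NeZero r] {N : ℕ} {e1 e2 e3 : Fin r → ℤ} {a : ℤ} {X Y C : ℤ → ℤ}
    (h : Good N e1 e2 e3 a X Y C) (s : ℤ) :
    Good N e1 e2 e3 a (fun i => X (-s + i)) Y (fun l => C (s + l)) where
  sX := h.sX.shift (-s)
  sY := h.sY
  sC := h.sC.shift s
  sum := by
    rw [h.sX.sum_shift, h.sC.sum_shift]
    linarith [h.sum]
  i1 i k l h1 := h.i1 _ _ _ (by linarith)
  j1 i k l h1 := h.j1 _ _ _ (by linarith)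
  i2 i i' k k' l l' c1 c2 c3 c4 c5 c6 c7 c8 c9 c10 c11 := h.i2 _ _ _ _ _ _ (by linarith)
    (by linarith) c3 c4 (by linarith) (by linarith) (by linarith) (by linarith) (by linarith)
    (by linarith) (by linarith)
  j2 i i' k k' l l' c1 c2 c3 c4 c5 c6 c7 c8 c9 c10 c11 := h.j2 _ _ _ _ _ _ (by linarith)
    (by linarith) c3 c4 (by linarith) (by linarith) (by linarith) (by linarith) (by linarith)
    (by linarith) (by linarith)

lemma perm4 : ∀ ρ : Equiv.Perm (Fin 4),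
    ((ρ 0 = 0 ∨ ρ 0 = 1) ∧ ((ρ 2 = 2 ∨ ρ 2 = 3) ∨ (ρ 3 = 2 ∨ ρ 3 = 3))) ∨
    ((ρ 0 = 2 ∨ ρ 0 = 3) ∧ ((ρ 2 = 0 ∨ ρ 2 = 1) ∨ (ρ 3 = 0 ∨ ρ 3 = 1))) := by
  decide

/-- The pointwise inequality for rank four. -/
lemma point7 {N : ℕ} (hN : 0 < N) {e1 e2 e3 : Fin 4 → ℤ} {a : ℤ} (ha : IsCoprime a (N : ℤ))
    (hd0 : (N : ℤ) ∣ e3 0 - e3 1) (hd1 : (N : ℤ) ∣ e3 2 - e3 3)
    (hG : ∀ i i' k k', i ≠ i' → k ≠ k' →
      ¬ (N : ℤ) ∣ (e1 i + e1 i') + (e2 k + e2 k') + (e3 0 + e3 2))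
    {X Y C : ℤ → ℤ} (h : Good N e1 e2 e3 a X Y C) :
    Psi (Q N) (fun i => a * e1 i) (fun i => a * e2 i) (a * e3 0) (a * e3 2) < 0 := by
  have hN' : (0 : ℤ) < N := by exact_mod_cast hN
  -- alignment
  obtain ⟨t0, ht0⟩ := hd0
  obtain ⟨t1, ht1⟩ := hd1
  obtain ⟨s, hs⟩ := h.sC.align hN (d := 2) (by norm_num) (T0 := a * t0 + a * t1)
    (g := fun v => (v - a * e3 0) / (N : ℤ) + (v - a * e3 2) / (N : ℤ)) (by
      intro v
      rw [Fin.sum_univ_four]
      have h1 : v - a * e3 1 = (v - a * e3 0) + N * (a * t0) := by linear_combination a * ht0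
      have h2 : v - a * e3 3 = (v - a * e3 2) + N * (a * t1) := by linear_combination a * ht1
      rw [h1, h2, Int.add_mul_ediv_left _ _ hN'.ne', Int.add_mul_ediv_left _ _ hN'.ne']
      push_cast
      ring)
  have h' := h.shift s
  set X' : ℤ → ℤ := fun i => X (-s + i) with hX'
  set C' : ℤ → ℤ := fun l => C (s + l) with hC'
  have hC01 : C' 0 = C' 1 := by
    have := hs 0 0 1 le_rfl (by norm_num) (by norm_num) (by norm_num)
    simpa [hC'] using this
  have hC23 : C' 2 = C' 3 := by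
    have := hs 1 0 1 le_rfl (by norm_num) (by norm_num) (by norm_num)
    simp only [hC']
    rw [show s + 2 = s + ((2 : ℕ) : ℤ) * 1 + 0 by push_cast; ring,
      show s + 3 = s + ((2 : ℕ) : ℤ) * 1 + 1 by push_cast; ring]
    exact this
  obtain ⟨sX, sY, sC, hsum, i1, j1, i2, j2⟩ := h'
  -- the residues
  obtain ⟨σ, hσ⟩ := sX.res
  obtain ⟨τ, hτ⟩ := sY.res
  obtain ⟨ρ, hρ⟩ := sC.res
  have r0 := hρ 0
  have r1 := hρ 1
  have r2 := hρ 2
  have r3 := hρ 3
  simp only [Fin.isValue, Fin.coe_ofNat_eq_mod, Nat.zero_mod, Nat.one_mod, Nat.reduceMod,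
    Nat.cast_zero, Nat.cast_one, Nat.cast_ofNat] at r0 r1 r2 r3
  rw [← hC01] at r1
  rw [← hC23] at r3
  have d01 : (N : ℤ) ∣ a * e3 0 - a * e3 1 := ⟨a * t0, by linear_combination a * ht0⟩
  have d23 : (N : ℤ) ∣ a * e3 2 - a * e3 3 := ⟨a * t1, by linear_combination a * ht1⟩
  have key : ∀ {c : ℤ} {l : Fin 4}, (N : ℤ) ∣ c - a * e3 l →
      ((l = 0 ∨ l = 1) → (N : ℤ) ∣ c - a * e3 0) ∧ ((l = 2 ∨ l = 3) → (N : ℤ) ∣ c - a * e3 2) := by
    intro c l hl
    constructor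
    · rintro (rfl | rfl)
      · exact hl
      · have := dvd_sub hl d01
        rwa [show c - a * e3 1 - (a * e3 0 - a * e3 1) = c - a * e3 0 by ring] at this
    · rintro (rfl | rfl)
      · exact hl
      · have := dvd_sub hl d23
        rwa [show c - a * e3 3 - (a * e3 2 - a * e3 3) = c - a * e3 2 by ring] at this
  have hres : ((N : ℤ) ∣ C' 0 - a * e3 0 ∧ (N : ℤ) ∣ C' 2 - a * e3 2) ∨
      ((N : ℤ) ∣ C' 0 - a * e3 2 ∧ (N : ℤ) ∣ C' 2 - a * e3 0) := by
    rcases perm4 ρ with ⟨h0, h2 | h3⟩ | ⟨h0, h2 | h3⟩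
    · exact Or.inl ⟨(key r0).1 h0, (key r2).2 h2⟩
    · exact Or.inl ⟨(key r0).1 h0, (key r3).2 h3⟩
    · exact Or.inr ⟨(key r0).2 h0, (key r2).1 h2⟩
    · exact Or.inr ⟨(key r0).2 h0, (key r3).1 h3⟩
  -- reduction to the sequences
  have hQc : ∀ z z', (N : ℤ) ∣ z - z' → Q N z = Q N z' := fun z z' => Q_congr
  have hred : Psi (Q N) (fun i => a * e1 i) (fun i => a * e2 i) (a * e3 0) (a * e3 2) =
      Psi (Q N) (fun i : Fin 4 => X' ((i : ℕ) : ℤ)) (fun k : Fin 4 => Y ((k : ℕ) : ℤ))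
        (C' 0) (C' 2) := by
    rw [← Psi_permX _ _ _ _ _ σ, ← Psi_permY _ _ _ _ _ τ]
    rcases hres with ⟨k0, k2⟩ | ⟨k0, k2⟩
    · exact (Psi_congr hQc hσ hτ k0 k2).symm
    · rw [Psi_symm (Q_neg hN) _ _ (a * e3 0) (a * e3 2)]
      exact (Psi_congr hQc hσ hτ k0 k2).symm
  rw [hred]
  -- the inequalities
  have pC : ∀ i q, C' (i + 4 * q) = C' i + N * q := fun i q => by exact_mod_cast sC.per i q
  have pX : ∀ i q, X' (i + 4 * q) = X' i + N * q := fun i q => by exact_mod_cast sX.per i q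
  have pY : ∀ i q, Y (i + 4 * q) = Y i + N * q := fun i q => by exact_mod_cast sY.per i q
  have cm4 : C' (-4) = C' 0 - N := by have := pC 0 (-1); norm_num at this; linarith
  have cm2 : C' (-2) = C' 2 - N := by have := pC 2 (-1); norm_num at this; linarith
  have c4 : C' 4 = C' 0 + N := by have := pC 0 1; norm_num at this; linarith
  have c5 : C' 5 = C' 0 + N := by have := pC 1 1; norm_num at this; linarith
  have x4 : X' 4 = X' 0 + N := by have := pX 0 1; norm_num at this; linarith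
  have y4 : Y 4 = Y 0 + N := by have := pY 0 1; norm_num at this; linarith
  have hsum' : X' 0 + X' 1 + X' 2 + X' 3 + Y 0 + Y 1 + Y 2 + Y 3 + 2 * C' 0 + 2 * C' 2 = 0 := by
    simp only [Fin.sum_univ_four, Fin.isValue, Fin.coe_ofNat_eq_mod, Nat.zero_mod, Nat.one_mod,
      Nat.reduceMod, Nat.cast_zero, Nat.cast_one, Nat.cast_ofNat] at hsum
    linarith
  have I : ∀ i k l : ℤ, i + k + l ≤ 3 → X' i + Y k + C' l ≤ 0 := fun i k l h1 =>
    i1 i k l (by push_cast; linarith)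
  have J : ∀ i k l : ℤ, 6 ≤ i + k + l → 0 ≤ X' i + Y k + C' l := fun i k l h1 =>
    j1 i k l (by push_cast; linarith)
  have hg : X' 0 + X' 2 + Y 1 + Y 3 + C' 0 + C' 2 ≠ 0 := by
    intro h0
    have hcc : (N : ℤ) ∣ (C' 0 + C' 2) - a * (e3 0 + e3 2) := by
      rcases hres with ⟨k0, k2⟩ | ⟨k0, k2⟩
      · have := dvd_add k0 k2
        rwa [show C' 0 - a * e3 0 + (C' 2 - a * e3 2) = (C' 0 + C' 2) - a * (e3 0 + e3 2) by ring]
          at this
      · have := dvd_add k0 k2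
        rwa [show C' 0 - a * e3 2 + (C' 2 - a * e3 0) = (C' 0 + C' 2) - a * (e3 0 + e3 2) by ring]
          at this
    have x0 := hσ 0
    have x2 := hσ 2
    have y1 := hτ 1
    have y3 := hτ 3
    simp only [Fin.isValue, Fin.coe_ofNat_eq_mod, Nat.zero_mod, Nat.one_mod, Nat.reduceMod,
      Nat.cast_zero, Nat.cast_one, Nat.cast_ofNat] at x0 x2 y1 y3
    have hall := dvd_add (dvd_add (dvd_add x0 x2) (dvd_add y1 y3)) hcc
    rw [show X' 0 - a * e1 (σ 0) + (X' 2 - a * e1 (σ 2)) +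
      (Y 1 - a * e2 (τ 1) + (Y 3 - a * e2 (τ 3))) + (C' 0 + C' 2 - a * (e3 0 + e3 2)) =
      (X' 0 + X' 2 + Y 1 + Y 3 + C' 0 + C' 2) - a * ((e1 (σ 0) + e1 (σ 2)) +
      (e2 (τ 1) + e2 (τ 3)) + (e3 0 + e3 2)) by ring, h0, zero_sub, dvd_neg,
      coprime_scale ha] at hall
    exact hG (σ 0) (σ 2) (τ 1) (τ 3) (fun h => absurd (σ.injective h) (by decide))
      (fun h => absurd (τ.injective h) (by decide)) hall
  have I2' : ∀ i i' k k' l l' : ℤ, i < i' → i' < i + 4 → k < k' → k' < k + 4 → l < l' →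
      l' < l + 4 → i + i' + k + k' + l + l' ≤ 7 → i' + k + l ≤ 3 → i + k' + l ≤ 3 →
      i + k + l' ≤ 3 → i' + k' + l' ≤ 7 → X' i + X' i' + Y k + Y k' + C' l + C' l' ≤ 0 := by
    intro i i' k k' l l' g1 g2 g3 g4 g5 g6 g7 g8 g9 g10 g11
    exact i2 i i' k k' l l' g1 (by push_cast; linarith) g3 (by push_cast; linarith) g5
      (by push_cast; linarith) (by push_cast; linarith) (by push_cast; linarith)
      (by push_cast; linarith) (by push_cast; linarith) (by push_cast; linarith)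
  have m1 := I2' 1 3 2 3 (-2) 0 (by norm_num) (by norm_num) (by norm_num) (by norm_num)
    (by norm_num) (by norm_num) (by norm_num) (by norm_num) (by norm_num) (by norm_num)
    (by norm_num)
  have m2 := I2' 2 3 1 3 (-2) 0 (by norm_num) (by norm_num) (by norm_num) (by norm_num)
    (by norm_num) (by norm_num) (by norm_num) (by norm_num) (by norm_num) (by norm_num)
    (by norm_num)
  have hpt := e7_point hN (a0 := X' 0) (a1 := X' 1) (a2 := X' 2) (a3 := X' 3) (b0 := Y 0)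
    (b1 := Y 1) (b2 := Y 2) (b3 := Y 3) (c0 := C' 0) (c1 := C' 2) (by linarith)
    (sX.mono _ _ (by norm_num)) (sX.mono _ _ (by norm_num)) (sX.mono _ _ (by norm_num))
    (by rw [← x4]; exact sX.mono _ _ (by norm_num))
    (sY.mono _ _ (by norm_num)) (sY.mono _ _ (by norm_num)) (sY.mono _ _ (by norm_num))
    (by rw [← y4]; exact sY.mono _ _ (by norm_num))
    (sC.mono _ _ (by norm_num)) (by rw [← c4]; exact sC.mono _ _ (by norm_num))
    (by linarith [J 0 1 5 (by norm_num)]) (by linarith [I 0 1 2 (by norm_num)])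
    (by linarith [I 0 3 0 (by norm_num)]) (by linarith [J 0 3 3 (by norm_num)])
    (by linarith [J 1 0 5 (by norm_num)]) (by linarith [I 1 0 2 (by norm_num)])
    (by linarith [I 1 2 0 (by norm_num)]) (by linarith [J 1 2 3 (by norm_num)])
    (by linarith [I 2 1 0 (by norm_num)]) (by linarith [J 2 1 3 (by norm_num)])
    (by linarith [J 2 3 1 (by norm_num)]) (by linarith [I 2 3 (-2) (by norm_num)])
    (by linarith [I 3 0 0 (by norm_num)]) (by linarith [J 3 0 3 (by norm_num)])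
    (by linarith [J 3 2 1 (by norm_num)]) (by linarith [I 3 2 (-2) (by norm_num)])
    (I2' 0 1 1 3 0 2 (by norm_num) (by norm_num) (by norm_num) (by norm_num) (by norm_num)
      (by norm_num) (by norm_num) (by norm_num) (by norm_num) (by norm_num) (by norm_num))
    (I2' 0 2 0 3 0 2 (by norm_num) (by norm_num) (by norm_num) (by norm_num) (by norm_num)
      (by norm_num) (by norm_num) (by norm_num) (by norm_num) (by norm_num) (by norm_num))
    (I2' 0 2 1 2 0 2 (by norm_num) (by norm_num) (by norm_num) (by norm_num) (by norm_num)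
      (by norm_num) (by norm_num) (by norm_num) (by norm_num) (by norm_num) (by norm_num))
    (I2' 0 3 0 2 0 2 (by norm_num) (by norm_num) (by norm_num) (by norm_num) (by norm_num)
      (by norm_num) (by norm_num) (by norm_num) (by norm_num) (by norm_num) (by norm_num))
    (I2' 1 2 0 2 0 2 (by norm_num) (by norm_num) (by norm_num) (by norm_num) (by norm_num)
      (by norm_num) (by norm_num) (by norm_num) (by norm_num) (by norm_num) (by norm_num))
    (I2' 1 3 0 1 0 2 (by norm_num) (by norm_num) (by norm_num) (by norm_num) (by norm_num)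
      (by norm_num) (by norm_num) (by norm_num) (by norm_num) (by norm_num) (by norm_num))
    (by linarith) (by linarith) hg
  unfold Psi
  rw [sum4_diff (Q_neg hN) (Q_zero (dvd_zero _)), sum4_diff (Q_neg hN) (Q_zero (dvd_zero _)),
    sum4_pairs (Q N), ← Q_neg hN (C' 0 - C' 2), neg_sub]
  simp only [Fin.sum_univ_four, Fin.isValue, Fin.coe_ofNat_eq_mod, Nat.zero_mod, Nat.one_mod,
      Nat.reduceMod, Nat.cast_zero, Nat.cast_one, Nat.cast_ofNat, ← add_assoc]
  linarith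

end Pool.Agent.W280.PE
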