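import Pool.Agent.W280.PE.Good

set_option autoImplicit false
set_option maxHeartbeats 4000000

/-!
The data attached to a residue class when neither the class nor its opposite is bad.
-/

open Polynomial

namespace Pool.Agent.W280.PE

open Pool.Agent.W432.PC Pool.Agent.W280.PC

universe u

lemma seqOf_ext {r : ℕ} [NeZero r] {N : ℕ} (hN : 0 < N) {a : ℤ} {e : Fin r → ℤ}
    (σ : Equiv.Perm (Fin r)) (h : Srt (N : ℤ) (fun l => wI N a (e (σ l)))) :
    SeqOf N e a (ext N (fun l => wI N a (e (σ l)))) where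
  mono i j hij := ext_mono (by exact_mod_cast hN) h hij
  per i q := ext_add i q
  res := ⟨σ, fun l => by rw [ext_natCast]; exact wI_mod a _⟩

lemma seqOf_neg {r : ℕ} [NeZero r] {N : ℕ} {a c : ℤ} {e : Fin r → ℤ} {Z : ℤ → ℤ}
    (h : SeqOf N e a Z) : SeqOf N (fun l => -e l) a (fun l => -Z (c - l)) where
  mono i j hij := neg_le_neg (h.mono _ _ (by linarith))
  per i q := by
    have := h.per (c - i) (-q)
    rw [show c - (i + r * q) = c - i + r * -q by ring, this]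
    ring
  res := by
    obtain ⟨σ, hσ⟩ := h.res
    refine ⟨(Equiv.ofBijective _ (Finite.injective_iff_bijective.mp
      (im_sub_injective (r := r) c))).trans σ, fun l => ?_⟩
    simp only [Equiv.trans_apply, Equiv.ofBijective_apply]
    have h1 := hσ (im r (c - (l : ℕ)))
    have h2 := h.per (((im r (c - (l : ℕ)) : Fin r) : ℕ) : ℤ) ((c - (l : ℕ)) / r)
    have h3 : (((im r (c - (l : ℕ)) : Fin r) : ℕ) : ℤ) + r * ((c - (l : ℕ)) / r) = c - (l : ℕ) := by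
      rw [im_val]
      linarith [Int.mul_ediv_add_emod (c - ((l : ℕ) : ℤ)) r]
    rw [h3] at h2
    rw [h2]
    have h4 : -(Z (((im r (c - (l : ℕ)) : Fin r) : ℕ) : ℤ) + N * ((c - (l : ℕ)) / r)) -
        a * -e (σ (im r (c - (l : ℕ)))) =
        -(Z (((im r (c - (l : ℕ)) : Fin r) : ℕ) : ℤ) - a * e (σ (im r (c - (l : ℕ))))) -
          N * ((c - (l : ℕ)) / r) := by ring
    rw [h4]
    exact dvd_sub (dvd_neg.mpr h1) (Dvd.intro _ rfl)

section

variable {R : Type u} [CommRing R] [IsDomain R] [CharZero R] {r : ℕ} [NeZero r]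

lemma exists_m {A : Fin 2 → Matrix (Fin r) (Fin r) R} {N : ℕ} (hN : 1 < N)
    {e : Fin 2 → Fin r → ℤ} {e' : Fin r → ℤ}
    (he : ∀ j, HasExponents (A j) (fun l => (e j l : ℚ) / N))
    (he' : HasExponents (∑ j, A j) (fun l => (e' l : ℚ) / N)) (a : ℤ) :
    ∃ m : ℤ, ∑ l, wI N a (e 0 l) + ∑ l, wI N a (e 1 l) - ∑ l, wI N a (e' l) = m * N := by
  have h1 := trace_rel A N hN e e' he he'
  rw [Fin.sum_univ_two] at h1
  have key : ∀ f : Fin r → ℤ, (N : ℤ) ∣ ∑ l, wI N a (f l) - a * ∑ l, f l := by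
    intro f
    rw [Finset.mul_sum, ← Finset.sum_sub_distrib]
    exact Finset.dvd_sum fun l _ => wI_mod a _
  obtain ⟨t0, h2⟩ := key (e 0)
  obtain ⟨t1, h3⟩ := key (e 1)
  obtain ⟨t2, h4⟩ := key e'
  exact ⟨t0 + t1 - t2, by linear_combination h2 + h3 - h4 + a * h1⟩

/-- The data attached to a class `a` such that neither `a` nor `-a` is bad. -/
theorem good_of_not (α : Fin 2 → R) (hα : ∀ i j, i ≠ j → IsUnit (α i - α j))
    (A : Fin 2 → Matrix (Fin r) (Fin r) R) (N : ℕ) (hN : 1 < N)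
    (e : Fin 2 → Fin r → ℤ) (e' : Fin r → ℤ)
    (he : ∀ j, HasExponents (A j) (fun l => (e j l : ℚ) / N))
    (he' : HasExponents (∑ j, A j) (fun l => (e' l : ℚ) / N))
    (a : ℤ)
    (hno : ¬ ∃ P₀ : ℕ, ∀ p : ℕ, p.Prime → P₀ < p → (N : ℤ) ∣ a * p + 1 →
      ∀ (𝔪 : Ideal R) [𝔪.IsMaximal], (p : R) ∈ 𝔪 → ¬ PCurvZeroAt α A 𝔪)
    (hno' : ¬ ∃ P₀ : ℕ, ∀ p : ℕ, p.Prime → P₀ < p → (N : ℤ) ∣ -a * p + 1 →
      ∀ (𝔪 : Ideal R) [𝔪.IsMaximal], (p : R) ∈ 𝔪 → ¬ PCurvZeroAt α A 𝔪) :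
    ∃ X Y C, Good N (e 0) (e 1) (fun l => -e' l) a X Y C := by
  have hN0 : 0 < N := by omega
  have hN' : (0 : ℤ) < N := by exact_mod_cast hN0
  obtain ⟨m, hm⟩ := exists_m hN he he' a
  obtain ⟨m', hm'⟩ := exists_m hN he he' (-a)
  obtain ⟨σ0, σ1, τ, s0, s1, s2, hI1, hI2⟩ := half α hα A N hN e e' he he' a hno m hm
  obtain ⟨σ0', σ1', τ', s0', s1', s2', hI1', hI2'⟩ :=
    half α hα A N hN e e' he he' (-a) hno' m' hm'
  obtain ⟨T0, hT0, g0⟩ := ext_neg_wI hN0 σ0 σ0' s0 s0'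
  obtain ⟨T1, hT1, g1⟩ := ext_neg_wI hN0 σ1 σ1' s1 s1'
  obtain ⟨T2, hT2, g2⟩ := ext_neg_wI hN0 τ τ' s2 s2'
  have hmm : m + m' = T0 + T1 - T2 := by
    have : (N : ℤ) * (m + m') = N * (T0 + T1 - T2) := by linarith
    exact mul_left_cancel₀ hN'.ne' this
  refine ⟨ext N (fun l => wI N a (e 0 (σ0 l))), ext N (fun l => wI N a (e 1 (σ1 l))),
    fun l => -ext N (fun l => wI N a (e' (τ l))) (m + r - 1 - l), seqOf_ext hN0 σ0 s0,
    seqOf_ext hN0 σ1 s1, seqOf_neg (seqOf_ext hN0 τ s2), ?_, hI1, ?_, hI2, ?_⟩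
  · simp only [ext_natCast]
    rw [Finset.sum_neg_distrib, sum_ext_window, Equiv.sum_comp σ0 (fun l => wI N a (e 0 l)),
      Equiv.sum_comp σ1 (fun l => wI N a (e 1 l)), Equiv.sum_comp τ (fun l => wI N a (e' l))]
    linarith
  · intro i k l hikl
    have h1 := hI1' (r - 1 - T0 - i) (r - 1 - T1 - k) (2 * (r - 1) + T2 + (m + m') - (r - 1) - l)
      (by rw [hmm]; linarith)
    dsimp only at h1 ⊢
    rw [g0, g1, g2] at h1
    have h2 : (r : ℤ) - 1 - T0 - (r - 1 - T0 - i) = i := by ring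
    have h3 : (r : ℤ) - 1 - T1 - (r - 1 - T1 - k) = k := by ring
    have h4 : (r : ℤ) - 1 - T2 - (m' + r - 1 - (2 * (r - 1) + T2 + (m + m') - (r - 1) - l)) =
      m + r - 1 - l := by ring
    rw [h2, h3, h4] at h1
    linarith
  · intro i i' k k' l l' c1 c2 c3 c4 c5 c6 c7 c8 c9 c10 c11
    have h1 := hI2' (r - 1 - T0 - i') (r - 1 - T0 - i) (r - 1 - T1 - k') (r - 1 - T1 - k)
      (2 * (r - 1) + T2 + (m + m') - (r - 1) - l') (2 * (r - 1) + T2 + (m + m') - (r - 1) - l)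
      (by linarith) (by linarith) (by linarith) (by linarith) (by linarith) (by linarith)
      (by rw [hmm]; linarith) (by rw [hmm]; linarith) (by rw [hmm]; linarith)
      (by rw [hmm]; linarith) (by rw [hmm]; linarith)
    dsimp only at h1 ⊢
    rw [g0, g0, g1, g1, g2, g2] at h1
    have h2 : ∀ i : ℤ, (r : ℤ) - 1 - T0 - (r - 1 - T0 - i) = i := fun i => by ring
    have h3 : ∀ k : ℤ, (r : ℤ) - 1 - T1 - (r - 1 - T1 - k) = k := fun k => by ring
    have h4 : ∀ l : ℤ, (r : ℤ) - 1 - T2 -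
      (m' + r - 1 - (2 * (r - 1) + T2 + (m + m') - (r - 1) - l)) = m + r - 1 - l :=
      fun l => by ring
    rw [h2, h2, h3, h3, h4, h4] at h1
    linarith

end

end Pool.Agent.W280.PE
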