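import Pool.Agent.W432.PC.Core

set_option autoImplicit false
set_option maxHeartbeats 4000000

/-!
Families of polynomial solutions with prescribed vanishing.
-/

open Polynomial

namespace Pool.Agent.W280.PE

open Pool.Agent.W432.PC

section

variable {K : Type*} [Field K] {n r : ℕ} {α : Fin n → K} {A : Fin n → Matrix (Fin r) (Fin r) K}

/-- Existence of a nonzero family of polynomial solutions with prescribed vanishing in prescribed
directions. -/
theorem exists_fam {Y : Matrix (Fin r) (Fin r) K[X]}
    (h : MinFam α A Y) {p : ℕ} [Fact p.Prime] [CharP K p]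
    {e : Fin n → Fin r → ℕ} {P : Fin n → Matrix (Fin r) (Fin r) K}
    {z : Fin n → Matrix (Fin r) (Fin r) K[X]} (hb : ∀ j, LocBasis (α j) p Y (e j) (P j) (z j))
    {k : ℕ} (L : Fin n → Matrix (Fin k) (Fin k) K)
    (hh : Fin n → Fin k → ℕ) (hhp : ∀ j a, hh j a ≤ p) (D : Fin k → ℤ)
    (hcount : ∑ j, ∑ a, ((Finset.univ.filter fun i => e j i < hh j a).card : ℤ) <
      ∑ b, ∑ i, ((D b - vdeg (Y i)) / p + 1)) :
    ∃ W : Fin k → Fin r → K[X], W ≠ 0 ∧ (∀ b, Sol α A (W b)) ∧
      (∀ b i, W b i ≠ 0 → ((W b i).natDegree : ℤ) ≤ D b) ∧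
      ∀ j a i, (X - C (α j)) ^ hh j a ∣ ∑ b, C (L j a b) * W b i := by
  classical
  have hp : 0 < p := (Fact.out : p.Prime).pos
  let m : Fin k → Fin r → ℕ := fun b i => ((D b - vdeg (Y i)) / p + 1).toNat
  -- the degree bound
  have hm : ∀ b i (t : Fin (m b i)), ((p * t.val : ℕ) : ℤ) + vdeg (Y i) ≤ D b := by
    intro b i t
    have h1 : (t.val : ℤ) < (D b - vdeg (Y i)) / p + 1 := by
      have := t.isLt
      simp only [m] at this
      omega
    have h2 : (t.val : ℤ) ≤ (D b - vdeg (Y i)) / p := by omega
    have h3 : (t.val : ℤ) * p ≤ D b - vdeg (Y i) :=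
      (Int.le_ediv_iff_mul_le (by exact_mod_cast hp)).mp h2
    push_cast
    linarith
  let G : ((Σ bi : Fin k × Fin r, Fin (m bi.1 bi.2)) → K) → Fin k → Fin r → K[X] :=
    fun u b i => gpoly p (fun t : Fin (m b i) => u ⟨(b, i), t⟩)
  have hGadd : ∀ u v b i, G (u + v) b i = G u b i + G v b i := by
    intro u v b i
    simp only [G, gpoly, Pi.add_apply, map_add, add_mul, Finset.sum_add_distrib]
  have hGsmul : ∀ (c : K) u b i, G (c • u) b i = C c * G u b i := by
    intro c u b i
    simp only [G, gpoly, Pi.smul_apply, smul_eq_mul, map_mul, Finset.mul_sum, mul_assoc]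
  -- the linear map
  let f : ((Σ bi : Fin k × Fin r, Fin (m bi.1 bi.2)) → K) →ₗ[K]
      ((Σ ja : Fin n × Fin k, {l : Fin r // e ja.1 l < hh ja.1 ja.2}) → K) :=
    { toFun := fun u c => Matrix.vecMul
        (fun i => ∑ b, L c.1.1 c.1.2 b * (G u b i).eval (α c.1.1)) (P c.1.1)⁻¹ c.2.1
      map_add' := by
        intro u v
        ext1 c
        have h1 : (fun i => ∑ b, L c.1.1 c.1.2 b * (G (u + v) b i).eval (α c.1.1)) =
            (fun i => ∑ b, L c.1.1 c.1.2 b * (G u b i).eval (α c.1.1)) +
            (fun i => ∑ b, L c.1.1 c.1.2 b * (G v b i).eval (α c.1.1)) := by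
          ext1 i
          simp only [Pi.add_apply]
          rw [← Finset.sum_add_distrib]
          refine Finset.sum_congr rfl fun b _ => ?_
          rw [hGadd, eval_add, mul_add]
        rw [h1, Matrix.add_vecMul]
        rfl
      map_smul' := by
        intro a u
        ext1 c
        have h1 : (fun i => ∑ b, L c.1.1 c.1.2 b * (G (a • u) b i).eval (α c.1.1)) =
            a • (fun i => ∑ b, L c.1.1 c.1.2 b * (G u b i).eval (α c.1.1)) := by
          ext1 i
          simp only [Pi.smul_apply, smul_eq_mul]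
          rw [Finset.mul_sum]
          refine Finset.sum_congr rfl fun b _ => ?_
          rw [hGsmul, eval_mul, eval_C]
          ring
        rw [h1, Matrix.smul_vecMul]
        rfl }
  have hdim : Module.finrank K
      ((Σ ja : Fin n × Fin k, {l : Fin r // e ja.1 l < hh ja.1 ja.2}) → K) <
      Module.finrank K ((Σ bi : Fin k × Fin r, Fin (m bi.1 bi.2)) → K) := by
    rw [Module.finrank_fintype_fun_eq_card, Module.finrank_fintype_fun_eq_card,
      Fintype.card_sigma, Fintype.card_sigma]
    have h1 : ∀ ja : Fin n × Fin k, Fintype.card {l : Fin r // e ja.1 l < hh ja.1 ja.2} =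
        (Finset.univ.filter fun i => e ja.1 i < hh ja.1 ja.2).card :=
      fun ja => Fintype.card_subtype _
    simp only [h1, Fintype.card_fin]
    rw [Fintype.sum_prod_type, Fintype.sum_prod_type]
    have h2 : ∑ b, ∑ i, ((D b - vdeg (Y i)) / p + 1) ≤ ∑ b, ∑ i, (m b i : ℤ) :=
      Finset.sum_le_sum fun b _ => Finset.sum_le_sum fun i _ => Int.self_le_toNat _
    have h3 := lt_of_lt_of_le hcount h2
    exact_mod_cast h3
  obtain ⟨u, hu, hu0⟩ :=
    (Submodule.ne_bot_iff _).mp (LinearMap.ker_ne_bot_of_finrank_lt hdim (f := f))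
  rw [LinearMap.mem_ker] at hu
  let W : Fin k → Fin r → K[X] := fun b => Matrix.vecMul (G u b) Y
  have hWeq : ∀ b, W b = ∑ i, G u b i • Y i := by
    intro b
    ext1 l
    rw [Finset.sum_apply]
    rfl
  refine ⟨W, ?_, ?_, ?_, ?_⟩
  · intro hW
    apply hu0
    ext1 ⟨⟨b, i⟩, t⟩
    have h1 := Matrix.eq_zero_of_vecMul_eq_zero h.det (congrFun hW b)
    have h2 := congrFun h1 i
    have h3 := gpoly_coeff hp (fun t : Fin (m b i) => u ⟨(b, i), t⟩) t
    have h4 : gpoly p (fun t : Fin (m b i) => u ⟨(b, i), t⟩) = 0 := h2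
    rw [h4] at h3
    exact h3.symm
  · intro b
    rw [hWeq]
    exact Sol.sum _ fun i _ => (h.sol i).smul (derivative_gpoly _)
  · intro b l hne
    have h1 : W b l = ∑ i, G u b i * Y i l := rfl
    have hex : ∃ i, G u b i ≠ 0 := by
      by_contra hcon
      push Not at hcon
      apply hne
      rw [h1]
      exact Finset.sum_eq_zero fun i _ => by rw [hcon i, zero_mul]
    have hm0 : ∀ i, G u b i ≠ 0 → m b i ≠ 0 := by
      intro i hi h0
      apply hi
      simp only [G, gpoly]
      refine Finset.sum_eq_zero fun t _ => ?_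
      have := t.isLt
      omega
    obtain ⟨i₀, hi₀⟩ := hex
    have hD0 : (0:ℤ) ≤ D b := by
      have h2 := hm b i₀ ⟨0, Nat.pos_of_ne_zero (hm0 i₀ hi₀)⟩
      simp only [mul_zero, Nat.cast_zero, zero_add] at h2
      exact le_trans (Int.natCast_nonneg _) h2
    obtain ⟨D', hD'⟩ := Int.eq_ofNat_of_zero_le hD0
    have h2 : (W b l).natDegree ≤ D' := by
      rw [h1]
      refine natDegree_sum_le_of_forall_le _ _ fun i _ => ?_
      by_cases hmi : G u b i = 0
      · rw [hmi, zero_mul, natDegree_zero]
        exact Nat.zero_le _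
      · have hvd : vdeg (Y i) ≤ D' := by
          have h3 := hm b i ⟨0, Nat.pos_of_ne_zero (hm0 i hmi)⟩
          simp only [mul_zero, Nat.cast_zero, zero_add] at h3
          rw [hD'] at h3
          exact_mod_cast h3
        have h3 : (G u b i).natDegree ≤ D' - vdeg (Y i) := by
          refine gpoly_natDegree_le _ fun t => ?_
          have := hm b i t
          rw [hD'] at this
          have h4 : p * t.val + vdeg (Y i) ≤ D' := by exact_mod_cast this
          omega
        have h4 := natDegree_le_vdeg (Y i) l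
        exact (natDegree_mul_le.trans (by omega))
    rw [hD']
    exact_mod_cast h2
  · intro j a
    -- value vector at α j in the adapted basis
    let g : Fin r → K[X] := fun i => ∑ b, C (L j a b) * G u b i
    let v : Fin r → K := fun i => (g i).eval (α j)
    let μ : Fin r → K := Matrix.vecMul v (P j)⁻¹
    have hv0 : v = fun i => ∑ b, L j a b * (G u b i).eval (α j) := by
      ext1 i
      simp only [v, g, eval_finsetSum, eval_mul, eval_C]
    have hμ : ∀ l, e j l < hh j a → μ l = 0 := by
      intro l hl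
      have := congrFun hu ⟨(j, a), ⟨l, hl⟩⟩
      simp only [μ, hv0]
      exact this
    have hPu : IsUnit (P j).det := isUnit_iff_ne_zero.mpr (hb j).detP
    have hv : Matrix.vecMul μ (P j) = v := by
      rw [Matrix.vecMul_vecMul, Matrix.nonsing_inv_mul _ hPu, Matrix.vecMul_one]
    intro l
    have h0 : ∑ b, C (L j a b) * W b l = ∑ i, g i * Y i l := by
      have : ∀ b, W b l = ∑ i, G u b i * Y i l := fun b => rfl
      simp only [this, g, Finset.mul_sum, Finset.sum_mul]
      rw [Finset.sum_comm]
      exact Finset.sum_congr rfl fun i _ => Finset.sum_congr rfl fun b _ => by ring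
    have h1 : ∑ b, C (L j a b) * W b l =
        ∑ i, (g i - C (v i)) * Y i l + ∑ i, C (v i) * Y i l := by
      rw [← Finset.sum_add_distrib, h0]
      exact Finset.sum_congr rfl fun i _ => by ring
    rw [h1]
    refine dvd_add ?_ ?_
    · refine Finset.dvd_sum fun i _ => ?_
      refine Dvd.dvd.mul_right ?_ _
      have h5 : g i - C (v i) =
          ∑ b, C (L j a b) * (G u b i - C ((G u b i).eval (α j))) := by
        simp only [hv0, g, map_sum, map_mul]
        rw [← Finset.sum_sub_distrib]
        exact Finset.sum_congr rfl fun b _ => by ring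
      rw [h5]
      exact Finset.dvd_sum fun b _ =>
        (((pow_dvd_pow _ (hhp j a)).trans (gpoly_congr _ _)).mul_left _)
    · have h2 : ∑ i, C (v i) * Y i l = ∑ i, C (μ i) * ((X - C (α j)) ^ e j i * z j i l) := by
        simp only [← (hb j).eq]
        rw [← hv]
        simp only [Matrix.vecMul, dotProduct, map_sum, map_mul, Finset.mul_sum, Finset.sum_mul]
        rw [Finset.sum_comm]
        exact Finset.sum_congr rfl fun a _ => Finset.sum_congr rfl fun b _ => by ring
      rw [h2]
      refine Finset.dvd_sum fun i _ => ?_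
      by_cases hi : e j i < hh j a
      · rw [hμ i hi]; simp
      · exact ((pow_dvd_pow _ (not_lt.mp hi)).mul_right _).mul_left _

end

end Pool.Agent.W280.PE
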