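import Pool.Agent.W280.PE.Arith7
import Pool.Agent.W280.PE.Both

set_option autoImplicit false
set_option maxHeartbeats 4000000

/-!
Rank four with three singular points.
-/

namespace Pool.Agent.W280.PE

open Finset Polynomial Pool.Agent.W280.PC Pool.Agent.W432.PC

lemma sum_dl_const (K : ℤ) : ∑ i, ∑ i', ∑ k, ∑ k', dl i i' * dl k k' * K = 144 * K := by
  have h : ∑ i, ∑ i', ∑ k, ∑ k', dl i i' * dl k k' = 144 := by decide
  simp only [← Finset.sum_mul]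
  rw [h]

/-- The arithmetic theorem for rank four. -/
theorem arith7 {D : ℕ} (hD : 1 < D) {e1 e2 e3 : Fin 4 → ℤ}
    (hd0 : (D : ℤ) ∣ e3 0 - e3 1) (hd1 : (D : ℤ) ∣ e3 2 - e3 3)
    (h1 : ∀ l l', IsCoprime (e1 l - e1 l') (D : ℤ) ∨ (D : ℤ) ∣ e1 l - e1 l')
    (h2 : ∀ l l', IsCoprime (e2 l - e2 l') (D : ℤ) ∨ (D : ℤ) ∣ e2 l - e2 l')
    (h3 : IsCoprime (e3 0 - e3 2) (D : ℤ) ∨ (D : ℤ) ∣ e3 0 - e3 2)
    (hF0 : ∀ i k, IsCoprime (e1 i + e2 k + e3 0) (D : ℤ))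
    (hF2 : ∀ i k, IsCoprime (e1 i + e2 k + e3 2) (D : ℤ))
    (hG : ∀ i i' k k', i ≠ i' → k ≠ k' →
      IsCoprime ((e1 i + e1 i') + (e2 k + e2 k') + (e3 0 + e3 2)) (D : ℤ))
    (hU : ∀ a : ℤ, IsCoprime a (D : ℤ) → ∃ X Y C, Good D e1 e2 e3 a X Y C) : False := by
  have : NeZero D := ⟨by omega⟩
  have hD0 : 0 < D := by omega
  have hpt : ∀ u : (ZMod D)ˣ, Psi (fun z => F D ((u : ZMod D) * (z : ZMod D))) e1 e2 (e3 0)
      (e3 2) < 0 := by
    intro u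
    have hc : IsCoprime (((u : ZMod D).val : ℕ) : ℤ) (D : ℤ) :=
      Nat.isCoprime_iff_coprime.2 (ZMod.val_coe_unit_coprime u)
    obtain ⟨X, Y, C, hgood⟩ := hU _ hc
    have := point7 hD0 hc hd0 hd1 (fun i i' k k' hi hk => not_dvd_of_coprime hD
      (hG i i' k k' hi hk)) hgood
    rw [Psi_smul] at this
    simp only [Q_unit] at this
    exact this
  have hneg := Finset.sum_neg (fun u _ => hpt u) (s := (univ : Finset (ZMod D)ˣ))
    Finset.univ_nonempty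
  have hsum : ∑ u : (ZMod D)ˣ, Psi (fun z => F D ((u : ZMod D) * (z : ZMod D))) e1 e2 (e3 0)
      (e3 2) = Psi (SU D) e1 e2 (e3 0) (e3 2) := by
    have := map_sum (PsiHom e1 e2 (e3 0) (e3 2))
      (fun (u : (ZMod D)ˣ) (z : ℤ) => F D ((u : ZMod D) * (z : ZMod D))) univ
    have h4 : (∑ u : (ZMod D)ˣ, fun z : ℤ => F D ((u : ZMod D) * (z : ZMod D))) = SU D := by
      ext z
      rw [Finset.sum_apply]
      rfl
    rw [h4] at this
    exact this.symm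
  rw [hsum] at hneg
  have hleg : ∀ e : Fin 4 → ℤ, (∀ l l', IsCoprime (e l - e l') (D : ℤ) ∨ (D : ℤ) ∣ e l - e l') →
      12 * SU D 1 ≤ ∑ l, ∑ l', SU D (e l - e l') := by
    intro e he
    simp only [Fin.sum_univ_four, sub_self, SU_zero]
    linarith [SU_ge hD (he 0 1), SU_ge hD (he 0 2), SU_ge hD (he 0 3), SU_ge hD (he 1 0),
      SU_ge hD (he 1 2), SU_ge hD (he 1 3), SU_ge hD (he 2 0), SU_ge hD (he 2 1),
      SU_ge hD (he 2 3), SU_ge hD (he 3 0), SU_ge hD (he 3 1), SU_ge hD (he 3 2)]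
  have hform : ∑ i : Fin 4, ∑ k : Fin 4, (SU D (e1 i + e2 k + e3 0) + SU D (e1 i + e2 k + e3 2)) =
      32 * SU D 1 := by
    simp only [SU_unit (hF0 _ _), SU_unit (hF2 _ _), Finset.sum_const, Finset.card_univ,
      Fintype.card_fin]
    ring
  have hform2 : ∑ i, ∑ i', ∑ k, ∑ k', dl i i' * dl k k' *
      SU D (e1 i + e1 i' + (e2 k + e2 k') + (e3 0 + e3 2)) = 144 * SU D 1 := by
    rw [← sum_dl_const]
    refine Finset.sum_congr rfl fun i _ => Finset.sum_congr rfl fun i' _ =>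
      Finset.sum_congr rfl fun k _ => Finset.sum_congr rfl fun k' _ => ?_
    by_cases hi : i = i'
    · rw [hi]; simp [dl]
    · by_cases hk : k = k'
      · rw [hk]; simp [dl]
      · rw [SU_unit (hG i i' k k' hi hk)]
  unfold Psi at hneg
  rw [hform, hform2] at hneg
  linarith [hleg e1 h1, hleg e2 h2, SU_ge hD h3]

end Pool.Agent.W280.PE
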