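import Pool.Agent.W280.PE.Ineq

set_option autoImplicit false
set_option maxHeartbeats 4000000

/-!
The inequalities in the two opposite classes.
-/

open Polynomial

namespace Pool.Agent.W280.PE

open Pool.Agent.W432.PC Pool.Agent.W280.PC

universe u

/-- the opposite class -/
lemma ext_neg_wI {r : ℕ} [NeZero r] {N : ℕ} (hN : 0 < N) {a : ℤ} {e : Fin r → ℤ}
    (σ σ' : Equiv.Perm (Fin r)) (h : Srt (N : ℤ) (fun l => wI N a (e (σ l))))
    (h' : Srt (N : ℤ) (fun l => wI N (-a) (e (σ' l)))) :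
    ∃ T : ℤ, (N : ℤ) * T = ∑ l, wI N a (e l) + ∑ l, wI N (-a) (e l) ∧
      ∀ i, ext N (fun l => wI N (-a) (e (σ' l))) i =
        -ext N (fun l => wI N a (e (σ l))) ((r - 1) - T - i) := by
  have hN' : (0 : ℤ) < N := by exact_mod_cast hN
  have h1 : ∀ l, ∃ t, wI N a (e l) + wI N (-a) (e l) = N * t := by
    intro l
    have h2 := wI_mod (D := N) a (e l)
    have h3 := wI_mod (D := N) (-a) (e l)
    obtain ⟨t, ht⟩ := dvd_add h2 h3
    exact ⟨t, by linarith⟩
  choose t ht using h1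
  refine ⟨∑ l, t l, ?_, ?_⟩
  · rw [Finset.mul_sum, ← Finset.sum_add_distrib]
    exact Finset.sum_congr rfl fun l _ => (ht l).symm
  · refine ext_neg hN' h h' ?_
    intro v
    rw [Equiv.sum_comp σ' (fun l => (v - wI N (-a) (e l)) / (N : ℤ)),
      Equiv.sum_comp σ (fun l => (v + wI N a (e l)) / (N : ℤ)), ← Finset.sum_sub_distrib]
    refine Finset.sum_congr rfl fun l _ => ?_
    have h2 : v - wI N (-a) (e l) = (v + wI N a (e l)) + N * (-t l) := by linarith [ht l]
    rw [h2, Int.add_mul_ediv_left _ _ hN'.ne']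
    ring

lemma sum_ext_window {r : ℕ} [NeZero r] {N : ℤ} {x : Fin r → ℤ} (c : ℤ) :
    ∑ l : Fin r, ext N x (c - (l : ℕ)) = ∑ l, x l + N * (c - (r - 1)) := by
  have h1 : ∀ c : ℤ, ∑ l : Fin r, ext N x (c - (l : ℕ)) =
      ∑ l ∈ Finset.range r, ext N x (c - (l : ℕ)) := fun c =>
    Fin.sum_univ_eq_sum_range (fun l : ℕ => ext N x (c - (l : ℤ))) r
  have hstep : ∀ c : ℤ, ∑ l ∈ Finset.range r, ext N x (c + 1 - (l : ℕ)) =
      ∑ l ∈ Finset.range r, ext N x (c - (l : ℕ)) + N := by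
    intro c
    have h2 := Finset.sum_range_succ' (fun l : ℕ => ext N x (c + 1 - (l : ℤ))) r
    rw [Finset.sum_range_succ] at h2
    have h3 : ext N x (c + 1 - ((0 : ℕ) : ℤ)) = ext N x (c + 1 - (r : ℤ)) + N := by
      have h4 := ext_add (N := N) (x := x) (c + 1 - (r : ℤ)) 1
      rw [mul_one, mul_one, sub_add_cancel] at h4
      simpa using h4
    rw [h3] at h2
    have h5 : ∑ k ∈ Finset.range r, ext N x (c + 1 - ((k + 1 : ℕ) : ℤ)) =
        ∑ l ∈ Finset.range r, ext N x (c - (l : ℕ)) := by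
      refine Finset.sum_congr rfl fun l _ => ?_
      congr 1
      push_cast
      ring
    rw [h5] at h2
    linarith
  have hbase : ∑ l ∈ Finset.range r, ext N x (((r : ℤ) - 1) - (l : ℕ)) = ∑ l, x l := by
    rw [← h1, ← Equiv.sum_comp Fin.revPerm x]
    refine Finset.sum_congr rfl fun l _ => ?_
    rw [← ext_natCast (N := N) (x := x) (Fin.revPerm l), Fin.revPerm_apply, Fin.val_rev]
    congr 1
    have := l.isLt
    omega
  have key : ∀ c : ℤ, ∑ l ∈ Finset.range r, ext N x (c - (l : ℕ)) =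
      ∑ l, x l + N * (c - (r - 1)) := by
    intro c
    have h6 : ∀ t : ℤ, ∑ l ∈ Finset.range r, ext N x (((r : ℤ) - 1 + t) - (l : ℕ)) =
        ∑ l, x l + N * t := by
      intro t
      induction t using Int.induction_on with
      | zero => simpa using hbase
      | succ i ih =>
        have := hstep ((r : ℤ) - 1 + i)
        rw [ih] at this
        rw [← add_assoc, this]
        ring
      | pred i ih =>
        have := hstep ((r : ℤ) - 1 + (-i - 1))
        have h7 : (r : ℤ) - 1 + (-i - 1) + 1 = (r : ℤ) - 1 + -i := by ring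
        rw [h7, ih] at this
        linarith
    have h8 := h6 (c - (r - 1))
    rw [add_sub_cancel] at h8
    exact h8
  rw [h1]
  exact key c

lemma im_sub_injective {r : ℕ} [NeZero r] (c : ℤ) :
    Function.Injective (fun l : Fin r => im r (c - (l : ℕ))) := by
  intro l l' h
  dsimp only at h
  have hr : (0 : ℤ) < r := by exact_mod_cast Nat.pos_of_ne_zero (NeZero.ne r)
  have h1 : (c - ((l : ℕ) : ℤ)) % r = (c - ((l' : ℕ) : ℤ)) % r := by
    rw [← im_val, ← im_val, h]
  have h2 : (r : ℤ) ∣ (c - ((l : ℕ) : ℤ)) - (c - ((l' : ℕ) : ℤ)) := Int.ModEq.dvd h1.symm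
  have h3 : (r : ℤ) ∣ ((l' : ℕ) : ℤ) - ((l : ℕ) : ℤ) := by
    have : ((l' : ℕ) : ℤ) - ((l : ℕ) : ℤ) = (c - ((l : ℕ) : ℤ)) - (c - ((l' : ℕ) : ℤ)) := by ring
    rw [this]; exact h2
  have h4 : |((l' : ℕ) : ℤ) - ((l : ℕ) : ℤ)| < r := by
    rw [abs_lt]
    have := l.isLt
    have := l'.isLt
    constructor <;> omega
  have h5 := Int.eq_zero_of_abs_lt_dvd h3 h4
  apply Fin.ext
  omega

section

variable {R : Type u} [CommRing R] [IsDomain R] [CharZero R] {r : ℕ} [NeZero r]

/-- The inequalities in one class that is not bad. -/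
theorem half (α : Fin 2 → R) (hα : ∀ i j, i ≠ j → IsUnit (α i - α j))
    (A : Fin 2 → Matrix (Fin r) (Fin r) R) (N : ℕ) (hN : 1 < N)
    (e : Fin 2 → Fin r → ℤ) (e' : Fin r → ℤ)
    (he : ∀ j, HasExponents (A j) (fun l => (e j l : ℚ) / N))
    (he' : HasExponents (∑ j, A j) (fun l => (e' l : ℚ) / N))
    (a : ℤ)
    (hno : ¬ ∃ P₀ : ℕ, ∀ p : ℕ, p.Prime → P₀ < p → (N : ℤ) ∣ a * p + 1 →
      ∀ (𝔪 : Ideal R) [𝔪.IsMaximal], (p : R) ∈ 𝔪 → ¬ PCurvZeroAt α A 𝔪)
    (m : ℤ) (hm : ∑ l, wI N a (e 0 l) + ∑ l, wI N a (e 1 l) - ∑ l, wI N a (e' l) = m * N) :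
    ∃ σ0 σ1 τ : Equiv.Perm (Fin r),
      Srt (N : ℤ) (fun l => wI N a (e 0 (σ0 l))) ∧ Srt (N : ℤ) (fun l => wI N a (e 1 (σ1 l))) ∧
      Srt (N : ℤ) (fun l => wI N a (e' (τ l))) ∧
      I1 r (ext N (fun l => wI N a (e 0 (σ0 l)))) (ext N (fun l => wI N a (e 1 (σ1 l))))
        (fun l => -ext N (fun l => wI N a (e' (τ l))) (m + r - 1 - l)) ∧
      I2 r (ext N (fun l => wI N a (e 0 (σ0 l)))) (ext N (fun l => wI N a (e 1 (σ1 l))))
        (fun l => -ext N (fun l => wI N a (e' (τ l))) (m + r - 1 - l)) := by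
  have hN0 : 0 < N := by omega
  have hN' : (0 : ℤ) < N := by exact_mod_cast hN0
  have hr : (0 : ℤ) < r := by exact_mod_cast Nat.pos_of_ne_zero (NeZero.ne r)
  choose σ hσ using fun j => exists_sortedI N a (e j)
  obtain ⟨τ, hτ⟩ := exists_sortedI N a e'
  have s0 := srt_wI hN0 (e := fun l => e 0 (σ 0 l)) (hσ 0)
  have s1 := srt_wI hN0 (e := fun l => e 1 (σ 1 l)) (hσ 1)
  have s2 := srt_wI hN0 (e := fun l => e' (τ l)) hτ
  -- a bound
  let M : ℤ := ∑ j, ∑ l, |e j l| + ∑ l, |e' l|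
  have hM : ∀ j l, |e j (σ j l)| ≤ M := by
    intro j l
    have h1 : |e j (σ j l)| ≤ ∑ l, |e j l| :=
      Finset.single_le_sum (f := fun l => |e j l|) (fun _ _ => abs_nonneg _)
        (Finset.mem_univ (σ j l))
    have h2 : ∑ l, |e j l| ≤ ∑ j, ∑ l, |e j l| :=
      Finset.single_le_sum (f := fun j => ∑ l, |e j l|)
        (fun _ _ => Finset.sum_nonneg fun _ _ => abs_nonneg _) (Finset.mem_univ j)
    have h3 : 0 ≤ ∑ l, |e' l| := Finset.sum_nonneg fun _ _ => abs_nonneg _
    simp only [M]; linarith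
  have hM' : ∀ l, |e' (τ l)| ≤ M := by
    intro l
    have h1 : |e' (τ l)| ≤ ∑ l, |e' l| :=
      Finset.single_le_sum (f := fun l => |e' l|) (fun _ _ => abs_nonneg _)
        (Finset.mem_univ (τ l))
    have h3 : 0 ≤ ∑ j, ∑ l, |e j l| :=
      Finset.sum_nonneg fun _ _ => Finset.sum_nonneg fun _ _ => abs_nonneg _
    simp only [M]; linarith
  push Not at hno
  obtain ⟨p, hp, hpM, hap, 𝔪, i𝔪, hpm, hpc⟩ := hno (6 * M).toNat
  have hpM' : 6 * M < p := by
    have h1 := Int.self_le_toNat (6 * M)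
    have h2 : ((6 * M).toNat : ℤ) < p := by exact_mod_cast hpM
    linarith
  have hm' : ∑ j, ∑ l, wI N a (e j (σ j l)) - ∑ l, wI N a (e' (τ l)) = m * N := by
    rw [Fin.sum_univ_two, Equiv.sum_comp (σ 0) (fun l => wI N a (e 0 l)),
      Equiv.sum_comp (σ 1) (fun l => wI N a (e 1 l)), Equiv.sum_comp τ (fun l => wI N a (e' l))]
    exact hm
  obtain ⟨hA, hB⟩ := ineqs_at α hα A N hN (fun j l => e j (σ j l)) (fun l => e' (τ l))
    (fun j => hasExponents_perm (he j) (σ j)) (hasExponents_perm he' τ) a hσ hτ m hm' hM hM' hp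
    hpM' hap hpm hpc
  set X := ext (N : ℤ) (fun l => wI N a (e 0 (σ 0 l))) with hX
  set Y := ext (N : ℤ) (fun l => wI N a (e 1 (σ 1 l))) with hY
  set Z := ext (N : ℤ) (fun l => wI N a (e' (τ l))) with hZ
  have pX : ∀ i q, X (i + r * q) = X i + N * q := fun i q => ext_add i q
  have pY : ∀ i q, Y (i + r * q) = Y i + N * q := fun i q => ext_add i q
  have pZ : ∀ i q, Z (i + r * q) = Z i + N * q := fun i q => ext_add i q
  have mZ : ∀ {i j : ℤ}, i ≤ j → Z i ≤ Z j := fun h => ext_mono hN' s2 h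
  have hI1 : I1 r X Y (fun l => -Z (m + r - 1 - l)) := by
    intro i k l hikl
    have hi := Int.mul_ediv_add_emod i r
    have hk := Int.mul_ediv_add_emod k r
    have h1 := hA (im r i) (im r k)
    rw [im_val, im_val] at h1
    have h2 := pX (i % r) (i / r)
    have h3 := pY (k % r) (k / r)
    have h4 := pZ (m + i % r + k % r) (i / r + k / r)
    rw [show i % r + r * (i / r) = i by linarith] at h2
    rw [show k % r + r * (k / r) = k by linarith] at h3
    rw [show m + i % r + k % r + r * (i / r + k / r) = m + i + k by linarith] at h4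
    have h5 : Z (m + i + k) ≤ Z (m + r - 1 - l) := mZ (by linarith)
    dsimp only
    rw [h2, h3]
    linarith
  refine ⟨σ 0, σ 1, τ, s0, s1, s2, hI1, ?_⟩
  refine window2 (C := fun l => -Z (m + r - 1 - l)) hr pX pY (fun i q => ?_) ?_
  · have := pZ (m + r - 1 - i) (-q)
    rw [show m + r - 1 - (i + r * q) = m + r - 1 - i + r * -q by ring, this]
    ring
  · intro i i' k k' l l' c1 c2 c3 c4 c5 c6 c7 c8 c9 c10 c11 c12 c13
    have vi : ((im r i : ℕ) : ℤ) = i := by rw [im_val, Int.emod_eq_of_lt c1 (by linarith)]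
    have vi' : ((im r i' : ℕ) : ℤ) = i' := by
      rw [im_val, Int.emod_eq_of_lt (by linarith) c3]
    have vk : ((im r k : ℕ) : ℤ) = k := by rw [im_val, Int.emod_eq_of_lt c4 (by linarith)]
    have vk' : ((im r k' : ℕ) : ℤ) = k' := by
      rw [im_val, Int.emod_eq_of_lt (by linarith) c6]
    have hB' := hB (im r i) (im r i') (im r k) (im r k') (m + r - 1 - l) (m + r - 1 - l')
      (by rw [Fin.le_def]; have : ((im r i : ℕ) : ℤ) ≤ (im r i' : ℕ) := by rw [vi, vi']; exact c2.le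
          exact_mod_cast this)
      (by rw [Fin.le_def]; have : ((im r k : ℕ) : ℤ) ≤ (im r k' : ℕ) := by rw [vk, vk']; exact c5.le
          exact_mod_cast this)
      (by linarith) (by rw [vi, vi', vk, vk']; linarith)
    have xi : wI N a (e 0 (σ 0 (im r i))) = X i := by
      rw [← vi, hX, ext_natCast, vi]
    have xi' : wI N a (e 0 (σ 0 (im r i'))) = X i' := by
      rw [← vi', hX, ext_natCast, vi']
    have yk : wI N a (e 1 (σ 1 (im r k))) = Y k := by
      rw [← vk, hY, ext_natCast, vk]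
    have yk' : wI N a (e 1 (σ 1 (im r k'))) = Y k' := by
      rw [← vk', hY, ext_natCast, vk']
    rw [xi, xi', yk, yk'] at hB'
    by_contra hG
    push Not at hG
    rcases hB' with h | h | h | h | h
    · linarith
    · have := hI1 i' k l c10
      dsimp only at this
      linarith
    · have := hI1 i k' l c11
      dsimp only at this
      linarith
    · have := hI1 i k l' c12
      dsimp only at this
      linarith
    · have h1 := hI1 i' k' (l' - r) (by linarith)
      dsimp only at h1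
      have h2 := pZ (m + r - 1 - l') 1
      rw [show m + r - 1 - (l' - r) = m + r - 1 - l' + r * 1 by ring, h2] at h1
      linarith

end

end Pool.Agent.W280.PE
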