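import Pool.Agent.W280.PE.Defs
import Pool.Agent.W280.PE.Int
import Pool.Agent.W280.PE.Two

set_option autoImplicit false
set_option maxHeartbeats 4000000

/-!
The inequalities satisfied when a residue class is not bad.
-/

open Polynomial

namespace Pool.Agent.W280.PE

open Pool.Agent.W432.PC Pool.Agent.W280.PC

universe u

lemma exists_sortedI {r : ℕ} (N : ℕ) (a : ℤ) (e : Fin r → ℤ) :
    ∃ σ : Equiv.Perm (Fin r), ∀ l l', l ≤ l' → wI N a (e (σ l)) < wI N a (e (σ l')) ∨
      (wI N a (e (σ l)) = wI N a (e (σ l')) ∧ e (σ l) ≤ e (σ l')) := by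
  refine ⟨Tuple.sort (fun l => toLex (wI N a (e l), e l)), fun l l' h => ?_⟩
  have h1 := Tuple.monotone_sort (fun l => toLex (wI N a (e l), e l)) h
  simp only [Function.comp_apply] at h1
  rw [Prod.Lex.toLex_le_toLex] at h1
  exact h1

lemma le_of_scaled {p : ℤ} {E w S M : ℤ} (hp0 : 0 < p) (hp : M < p) (hM : -M ≤ S)
    (h1 : E = S + p * w) (h2 : E ≤ 0) : w ≤ 0 := by
  by_contra hc
  push Not at hc
  have : p * 1 ≤ p * w := mul_le_mul_of_nonneg_left (by omega) hp0.le
  linarith

lemma srt_wI {r N : ℕ} (hN : 0 < N) {a : ℤ} {e : Fin r → ℤ}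
    (h : ∀ l l', l ≤ l' → wI N a (e l) < wI N a (e l') ∨
      (wI N a (e l) = wI N a (e l') ∧ e l ≤ e l')) : Srt (N : ℤ) (fun l => wI N a (e l)) := by
  intro l l'
  constructor
  · intro hl
    rcases h l l' hl with h1 | h1
    · exact h1.le
    · exact h1.1.le
  · have h1 := wI_nonneg hN a (e l)
    have h2 := wI_le hN a (e l')
    dsimp only
    linarith

section

variable {R : Type u} [CommRing R] [IsDomain R] [CharZero R] {r : ℕ} [NeZero r]

/-- The integral inequalities at one large prime. -/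
theorem ineqs_at (α : Fin 2 → R) (hα : ∀ i j, i ≠ j → IsUnit (α i - α j))
    (A : Fin 2 → Matrix (Fin r) (Fin r) R) (N : ℕ) (hN : 1 < N)
    (e : Fin 2 → Fin r → ℤ) (e' : Fin r → ℤ)
    (he : ∀ j, HasExponents (A j) (fun l => (e j l : ℚ) / N))
    (he' : HasExponents (∑ j, A j) (fun l => (e' l : ℚ) / N))
    (a : ℤ) (hsort : ∀ j l l', l ≤ l' → wI N a (e j l) < wI N a (e j l') ∨
      (wI N a (e j l) = wI N a (e j l') ∧ e j l ≤ e j l'))
    (hsort' : ∀ l l', l ≤ l' → wI N a (e' l) < wI N a (e' l') ∨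
      (wI N a (e' l) = wI N a (e' l') ∧ e' l ≤ e' l'))
    (m : ℤ) (hm : ∑ j, ∑ l, wI N a (e j l) - ∑ l, wI N a (e' l) = m * N)
    {M : ℤ} (hM : ∀ j l, |e j l| ≤ M) (hM' : ∀ l, |e' l| ≤ M)
    {p : ℕ} (hp : p.Prime) (hpM : 6 * M < p) (hap : (N : ℤ) ∣ a * p + 1)
    {𝔪 : Ideal R} [𝔪.IsMaximal] (hpm : (p : R) ∈ 𝔪) (hpc : PCurvZeroAt α A 𝔪) :
    (∀ i k : Fin r, ext N (fun l => wI N a (e 0 l)) ((i : ℕ) : ℤ) +
      ext N (fun l => wI N a (e 1 l)) ((k : ℕ) : ℤ) ≤
      ext N (fun l => wI N a (e' l)) (m + (i : ℕ) + (k : ℕ))) ∧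
    (∀ (i i' k k' : Fin r) (S1 S2 : ℤ), i ≤ i' → k ≤ k' → S2 ≤ S1 →
      ((i' : ℕ) : ℤ) + (i : ℕ) + (k' : ℕ) + (k : ℕ) + 2 * m < S1 + S2 + 2 →
      (wI N a (e 0 i) + wI N a (e 0 i') + wI N a (e 1 k) + wI N a (e 1 k') ≤
        ext N (fun l => wI N a (e' l)) S1 + ext N (fun l => wI N a (e' l)) S2) ∨
      (wI N a (e 0 i) + wI N a (e 1 k') ≤ ext N (fun l => wI N a (e' l)) S2) ∨
      (wI N a (e 0 i') + wI N a (e 1 k) ≤ ext N (fun l => wI N a (e' l)) S2) ∨
      (wI N a (e 0 i') + wI N a (e 1 k') ≤ ext N (fun l => wI N a (e' l)) S1) ∨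
      (wI N a (e 0 i) + wI N a (e 1 k) ≤ ext N (fun l => wI N a (e' l)) S1 - N)) := by
  classical
  have hr : (0 : ℤ) < r := by exact_mod_cast Nat.pos_of_ne_zero (NeZero.ne r)
  have : Fact p.Prime := ⟨hp⟩
  have hp0 : (0 : ℤ) < p := by exact_mod_cast hp.pos
  have hNpos : (0 : ℤ) < N := by exact_mod_cast (by omega : 0 < N)
  obtain ⟨K, iF, iA, iC, φ, h1, h2, h3⟩ := geometric_point hα hp hpm hpc
  have hM0 : 0 ≤ M := (abs_nonneg _).trans (hM' ⟨0, Nat.pos_of_ne_zero (NeZero.ne r)⟩)
  obtain ⟨E, F, hE, hF, mE, mF, hFp, hfam⟩ := fam_point φ α A h2 h3 hN hap he he' hM hM'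
    (by linarith) hsort hsort' m hm
  have h01 : φ (α 0) ≠ φ (α 1) := h2 0 1 (by decide)
  -- degrees
  have hdeg : ∀ S : ℤ, (N : ℤ) * (p * (S / r) + F (im r S)) =
      e' (im r S) + p * ext N (fun l => wI N a (e' l)) S := by
    intro S
    unfold ext
    linear_combination hF (im r S)
  have hSrtF : Srt (p : ℤ) (fun l => (F l : ℤ)) := by
    intro l l'
    constructor
    · intro hl
      have := mF l l' hl
      dsimp only
      exact_mod_cast this
    · have := hFp l'
      dsimp only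
      omega
  have hdmono : ∀ S1 S2 : ℤ, S2 ≤ S1 → (p : ℤ) * (S2 / r) + F (im r S2) ≤
      p * (S1 / r) + F (im r S1) := by
    intro S1 S2 hS
    have := ext_mono hp0 hSrtF hS
    unfold ext at this
    linarith
  have hb : ∀ j l, -M ≤ e j l ∧ e j l ≤ M := fun j l => abs_le.mp (hM j l)
  have hb' : ∀ l, -M ≤ e' l ∧ e' l ≤ M := fun l => abs_le.mp (hM' l)
  constructor
  · intro i k
    set S : ℤ := m + (i : ℕ) + (k : ℕ) with hS
    obtain ⟨W, hW0, hWs, hWd, hWv⟩ := hfam 1 (fun _ => 1) ![fun _ => i, fun _ => k]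
      (fun _ => S / r) (fun _ => im r S) (by
        simp only [Fin.sum_univ_two, Fin.sum_univ_one, Matrix.cons_val_zero, Matrix.cons_val_one]
        rw [im_val]
        have := Int.mul_ediv_add_emod S r
        push_cast
        linarith)
    obtain ⟨b, hb1⟩ := Function.ne_iff.mp hW0
    obtain ⟨l, hl⟩ := Function.ne_iff.mp hb1
    have hb0 : b = 0 := Subsingleton.elim _ _
    subst hb0
    have k1 := hWv 0 0 l
    have k2 := hWv 1 0 l
    simp only [Fin.sum_univ_one, Matrix.one_apply_eq, C_1, one_mul, Matrix.cons_val_zero,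
      Matrix.cons_val_one] at k1 k2
    have k3 := two_dvd h01 hl k1 k2
    have k4 := hWd 0 l hl
    have k5 : ((E 0 i + E 1 k : ℕ) : ℤ) ≤ ((W 0 l).natDegree : ℤ) := by exact_mod_cast k3
    push_cast at k5
    simp only [ext_natCast]
    have k6 := le_of_scaled (p := p) (M := 6 * M)
      (E := N * (E 0 i + E 1 k - (p * (S / r) + F (im r S))))
      (w := wI N a (e 0 i) + wI N a (e 1 k) - ext N (fun l => wI N a (e' l)) S)
      (S := e 0 i + e 1 k - e' (im r S)) hp0 hpM
      (by linarith [(hb 0 i).1, (hb 1 k).1, (hb' (im r S)).2])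
      (by linear_combination hE 0 i + hE 1 k - hdeg S)
      (mul_nonpos_of_nonneg_of_nonpos hNpos.le (by linarith))
    linarith
  · intro i i' k k' S1 S2 hii hkk hSS hcount
    obtain ⟨W, hW0, hWs, hWd, hWv⟩ := hfam 2 ![1, !![1, 1; 1, 0]] ![![i', i], ![k', k]]
      ![S1 / r, S2 / r] ![im r S1, im r S2] (by
        simp only [Fin.sum_univ_two, Matrix.cons_val_zero, Matrix.cons_val_one]
        rw [im_val, im_val]
        have e1 := Int.mul_ediv_add_emod S1 r
        have e2 := Int.mul_ediv_add_emod S2 r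
        push_cast
        linarith)
    have hW : W 0 ≠ 0 ∨ W 1 ≠ 0 := by
      by_contra hcon
      push Not at hcon
      apply hW0
      ext1 b
      fin_cases b
      · exact hcon.1
      · exact hcon.2
    have kx1 : ∀ l, (X - C (φ (α 0))) ^ E 0 i' ∣ W 0 l := by
      intro l
      have := hWv 0 0 l
      simpa [Fin.sum_univ_two] using this
    have kx2 : ∀ l, (X - C (φ (α 0))) ^ E 0 i ∣ W 1 l := by
      intro l
      have := hWv 0 1 l
      simpa [Fin.sum_univ_two] using this
    have ky1 : ∀ l, (X - C (φ (α 1))) ^ E 1 k' ∣ W 0 l + W 1 l := by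
      intro l
      have := hWv 1 0 l
      simpa [Fin.sum_univ_two] using this
    have ky2 : ∀ l, (X - C (φ (α 1))) ^ E 1 k ∣ W 0 l := by
      intro l
      have := hWv 1 1 l
      simpa [Fin.sum_univ_two] using this
    have d1 : ∀ l, W 0 l ≠ 0 → ((W 0 l).natDegree : ℤ) ≤ p * (S1 / r) + F (im r S1) := by
      intro l hl
      have := hWd 0 l hl
      simpa using this
    have d2 : ∀ l, W 1 l ≠ 0 → ((W 1 l).natDegree : ℤ) ≤ p * (S2 / r) + F (im r S2) := by
      intro l hl
      have := hWd 1 l hl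
      simpa using this
    have halt := two_alt (p := p) h01 hW (hWs 0) (hWs 1) (hdmono S1 S2 hSS) d1 d2
      (mE 0 i i' hii) (mE 1 k k' hkk) kx1 kx2 ky1 ky2
    have c0 := hb 0 i
    have c1 := hb 0 i'
    have c2 := hb 1 k
    have c3 := hb 1 k'
    have c4 := hb' (im r S1)
    have c5 := hb' (im r S2)
    rcases halt with h | h | h | h | h
    · left
      have k6 := le_of_scaled (p := p) (M := 6 * M)
        (E := N * (E 0 i + E 0 i' + E 1 k + E 1 k' - (p * (S1 / r) + F (im r S1))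
          - (p * (S2 / r) + F (im r S2))))
        (w := wI N a (e 0 i) + wI N a (e 0 i') + wI N a (e 1 k) + wI N a (e 1 k') -
          ext N (fun l => wI N a (e' l)) S1 - ext N (fun l => wI N a (e' l)) S2)
        (S := e 0 i + e 0 i' + e 1 k + e 1 k' - e' (im r S1) - e' (im r S2)) hp0 hpM
        (by linarith)
        (by linear_combination hE 0 i + hE 0 i' + hE 1 k + hE 1 k' - hdeg S1 - hdeg S2)
        (mul_nonpos_of_nonneg_of_nonpos hNpos.le (by linarith))
      linarith
    · right; left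
      have k6 := le_of_scaled (p := p) (M := 6 * M)
        (E := N * (E 0 i + E 1 k' - (p * (S2 / r) + F (im r S2))))
        (w := wI N a (e 0 i) + wI N a (e 1 k') - ext N (fun l => wI N a (e' l)) S2)
        (S := e 0 i + e 1 k' - e' (im r S2)) hp0 hpM (by linarith)
        (by linear_combination hE 0 i + hE 1 k' - hdeg S2)
        (mul_nonpos_of_nonneg_of_nonpos hNpos.le (by linarith))
      linarith
    · right; right; left
      have k6 := le_of_scaled (p := p) (M := 6 * M)
        (E := N * (E 0 i' + E 1 k - (p * (S2 / r) + F (im r S2))))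
        (w := wI N a (e 0 i') + wI N a (e 1 k) - ext N (fun l => wI N a (e' l)) S2)
        (S := e 0 i' + e 1 k - e' (im r S2)) hp0 hpM (by linarith)
        (by linear_combination hE 0 i' + hE 1 k - hdeg S2)
        (mul_nonpos_of_nonneg_of_nonpos hNpos.le (by linarith))
      linarith
    · right; right; right; left
      have k6 := le_of_scaled (p := p) (M := 6 * M)
        (E := N * (E 0 i' + E 1 k' - (p * (S1 / r) + F (im r S1))))
        (w := wI N a (e 0 i') + wI N a (e 1 k') - ext N (fun l => wI N a (e' l)) S1)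
        (S := e 0 i' + e 1 k' - e' (im r S1)) hp0 hpM (by linarith)
        (by linear_combination hE 0 i' + hE 1 k' - hdeg S1)
        (mul_nonpos_of_nonneg_of_nonpos hNpos.le (by linarith))
      linarith
    · right; right; right; right
      have k6 := le_of_scaled (p := p) (M := 6 * M)
        (E := N * (E 0 i + E 1 k - (p * (S1 / r) + F (im r S1) - p)))
        (w := wI N a (e 0 i) + wI N a (e 1 k) - ext N (fun l => wI N a (e' l)) S1 + N)
        (S := e 0 i + e 1 k - e' (im r S1)) hp0 hpM (by linarith)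
        (by linear_combination hE 0 i + hE 1 k - hdeg S1)
        (mul_nonpos_of_nonneg_of_nonpos hNpos.le (by linarith))
      linarith

end

end Pool.Agent.W280.PE
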