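import Pool.Agent.W280.PC.Point

set_option autoImplicit false
set_option linter.unusedVariables false
set_option maxHeartbeats 4000000

/-!
The pointwise inequality for rank four (type E7).
-/

namespace Pool.Agent.W280.PE

open Pool.Agent.W280.PC

lemma a3_abs (r1 r2 r3 : ℤ) :
    |r1| + |r2| + |r3| + |r1 + r2 + r3| + |r1 + r2| + |r2 + r3| ≤ -3 * (3 * r1 + 2 * r2 + r3) ∨
    |r1| + |r2| + |r3| + |r1 + r2 + r3| + |r1 + r2| + |r2 + r3| ≤ -3 * (-r1 + 2 * r2 + r3) ∨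
    |r1| + |r2| + |r3| + |r1 + r2 + r3| + |r1 + r2| + |r2 + r3| ≤ -3 * (-r1 - 2 * r2 + r3) ∨
    |r1| + |r2| + |r3| + |r1 + r2 + r3| + |r1 + r2| + |r2 + r3| ≤ -3 * (-r1 - 2 * r2 - 3 * r3) := by
  rcases abs_cases r1 with ⟨h1, g1⟩ | ⟨h1, g1⟩ <;>
  rcases abs_cases r2 with ⟨h2, g2⟩ | ⟨h2, g2⟩ <;>
  rcases abs_cases r3 with ⟨h3, g3⟩ | ⟨h3, g3⟩ <;>
  rcases abs_cases (r1 + r2 + r3) with ⟨h4, g4⟩ | ⟨h4, g4⟩ <;>
  rcases abs_cases (r1 + r2) with ⟨h5, g5⟩ | ⟨h5, g5⟩ <;>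
  rcases abs_cases (r2 + r3) with ⟨h6, g6⟩ | ⟨h6, g6⟩ <;>
  rw [h1, h2, h3, h4, h5, h6] <;> omega

lemma e7_abs {D a0 a1 a2 a3 b0 b1 b2 b3 c0 c1 : ℤ}
    (hs : a0 + a1 + a2 + a3 + b0 + b1 + b2 + b3 + 2 * c0 + 2 * c1 = 0)
    (ga0 : a0 ≤ a1)
    (ga1 : a1 ≤ a2)
    (ga2 : a2 ≤ a3)
    (ga3 : a3 ≤ a0 + D)
    (gb0 : b0 ≤ b1)
    (gb1 : b1 ≤ b2)
    (gb2 : b2 ≤ b3)
    (gb3 : b3 ≤ b0 + D)
    (gc0 : c0 ≤ c1)
    (gc1 : c1 ≤ c0 + D)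
    (f010 : -D ≤ a0 + b1 + c0)
    (f011 : a0 + b1 + c1 ≤ 0)
    (f030 : a0 + b3 + c0 ≤ 0)
    (f031 : 0 ≤ a0 + b3 + c1)
    (f100 : -D ≤ a1 + b0 + c0)
    (f101 : a1 + b0 + c1 ≤ 0)
    (f120 : a1 + b2 + c0 ≤ 0)
    (f121 : 0 ≤ a1 + b2 + c1)
    (f210 : a2 + b1 + c0 ≤ 0)
    (f211 : 0 ≤ a2 + b1 + c1)
    (f230 : 0 ≤ a2 + b3 + c0)
    (f231 : a2 + b3 + c1 ≤ D)
    (f300 : a3 + b0 + c0 ≤ 0)
    (f301 : 0 ≤ a3 + b0 + c1)
    (f320 : 0 ≤ a3 + b2 + c0)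
    (f321 : a3 + b2 + c1 ≤ D)
    (k0113 : a0 + a1 + b1 + b3 + c0 + c1 ≤ 0)
    (k0203 : a0 + a2 + b0 + b3 + c0 + c1 ≤ 0)
    (k0212 : a0 + a2 + b1 + b2 + c0 + c1 ≤ 0)
    (k0302 : a0 + a3 + b0 + b2 + c0 + c1 ≤ 0)
    (k1202 : a1 + a2 + b0 + b2 + c0 + c1 ≤ 0)
    (k1301 : a1 + a3 + b0 + b1 + c0 + c1 ≤ 0)
    (k1323 : a1 + a3 + b2 + b3 + c0 + c1 ≤ D)
    (k2313 : a2 + a3 + b1 + b3 + c0 + c1 ≤ D)
    (hg : a0 + a2 + b1 + b3 + c0 + c1 ≠ 0)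
    : (|a3 + b1 + c0| + |a0 + b2 + c1| + |a1 + b3 + c0| + |a2 + b0 + c1| + |a0 + a3 + b1 + b2 + c0 + c1| + |a0 + a1 + b2 + b3 + c0 + c1|) + (|a1 + b1 + c1| + |a2 + b2 + c0| + |a3 + b3 + c1 - D| + |a0 + b0 + c0 + D| + |a1 + a2 + b1 + b2 + c0 + c1| + |a2 + a3 + b2 + b3 + c0 + c1 - D|) + |a0 + a2 + b1 + b3 + c0 + c1| < 3 * D := by
  have k1 := a3_abs (a3 + b1 + c0) (a0 + b2 + c1) (a1 + b3 + c0)
  have k2 := a3_abs (a1 + b1 + c1) (a2 + b2 + c0) (a3 + b3 + c1 - D)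
  rw [show (a3 + b1 + c0) + (a0 + b2 + c1) + (a1 + b3 + c0) = -(a2 + b0 + c1) by linarith, abs_neg,
    show (a3 + b1 + c0) + (a0 + b2 + c1) = a0 + a3 + b1 + b2 + c0 + c1 by ring,
    show (a0 + b2 + c1) + (a1 + b3 + c0) = a0 + a1 + b2 + b3 + c0 + c1 by ring] at k1
  rw [show (a1 + b1 + c1) + (a2 + b2 + c0) + (a3 + b3 + c1 - D) = -(a0 + b0 + c0 + D) by linarith, abs_neg,
    show (a1 + b1 + c1) + (a2 + b2 + c0) = a1 + a2 + b1 + b2 + c0 + c1 by ring,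
    show (a2 + b2 + c0) + (a3 + b3 + c1 - D) = a2 + a3 + b2 + b3 + c0 + c1 - D by ring] at k2
  generalize |a3 + b1 + c0| + |a0 + b2 + c1| + |a1 + b3 + c0| + |a2 + b0 + c1| + |a0 + a3 + b1 + b2 + c0 + c1| + |a0 + a1 + b2 + b3 + c0 + c1| = S1 at k1 ⊢
  generalize |a1 + b1 + c1| + |a2 + b2 + c0| + |a3 + b3 + c1 - D| + |a0 + b0 + c0 + D| + |a1 + a2 + b1 + b2 + c0 + c1| + |a2 + a3 + b2 + b3 + c0 + c1 - D| = S2 at k2 ⊢
  rcases abs_cases (a0 + a2 + b1 + b3 + c0 + c1) with ⟨h0, g0⟩ | ⟨h0, g0⟩ <;> rw [h0] <;>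
  rcases k1 with k1 | k1 | k1 | k1 <;>
  rcases k2 with k2 | k2 | k2 | k2 <;> omega

/-- three points, rank four, one leg with doubled exponents -/
lemma e7_point {D : ℕ} (hD : 0 < D) {a0 a1 a2 a3 b0 b1 b2 b3 c0 c1 : ℤ}
    (hs : a0 + a1 + a2 + a3 + b0 + b1 + b2 + b3 + 2 * c0 + 2 * c1 = 0)
    (ga0 : a0 ≤ a1)
    (ga1 : a1 ≤ a2)
    (ga2 : a2 ≤ a3)
    (ga3 : a3 ≤ a0 + (D : ℤ))
    (gb0 : b0 ≤ b1)
    (gb1 : b1 ≤ b2)
    (gb2 : b2 ≤ b3)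
    (gb3 : b3 ≤ b0 + (D : ℤ))
    (gc0 : c0 ≤ c1)
    (gc1 : c1 ≤ c0 + (D : ℤ))
    (f010 : -(D : ℤ) ≤ a0 + b1 + c0)
    (f011 : a0 + b1 + c1 ≤ 0)
    (f030 : a0 + b3 + c0 ≤ 0)
    (f031 : 0 ≤ a0 + b3 + c1)
    (f100 : -(D : ℤ) ≤ a1 + b0 + c0)
    (f101 : a1 + b0 + c1 ≤ 0)
    (f120 : a1 + b2 + c0 ≤ 0)
    (f121 : 0 ≤ a1 + b2 + c1)
    (f210 : a2 + b1 + c0 ≤ 0)
    (f211 : 0 ≤ a2 + b1 + c1)
    (f230 : 0 ≤ a2 + b3 + c0)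
    (f231 : a2 + b3 + c1 ≤ (D : ℤ))
    (f300 : a3 + b0 + c0 ≤ 0)
    (f301 : 0 ≤ a3 + b0 + c1)
    (f320 : 0 ≤ a3 + b2 + c0)
    (f321 : a3 + b2 + c1 ≤ (D : ℤ))
    (k0113 : a0 + a1 + b1 + b3 + c0 + c1 ≤ 0)
    (k0203 : a0 + a2 + b0 + b3 + c0 + c1 ≤ 0)
    (k0212 : a0 + a2 + b1 + b2 + c0 + c1 ≤ 0)
    (k0302 : a0 + a3 + b0 + b2 + c0 + c1 ≤ 0)
    (k1202 : a1 + a2 + b0 + b2 + c0 + c1 ≤ 0)
    (k1301 : a1 + a3 + b0 + b1 + c0 + c1 ≤ 0)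
    (k1323 : a1 + a3 + b2 + b3 + c0 + c1 ≤ (D : ℤ))
    (k2313 : a2 + a3 + b1 + b3 + c0 + c1 ≤ (D : ℤ))
    (hg : a0 + a2 + b1 + b3 + c0 + c1 ≠ 0)
    : 7 * (Q D (a1 - a0) + Q D (a2 - a0) + Q D (a3 - a0) + Q D (a2 - a1) + Q D (a3 - a1) + Q D (a3 - a2) + Q D (b1 - b0) + Q D (b2 - b0) + Q D (b3 - b0) + Q D (b2 - b1) + Q D (b3 - b1) + Q D (b3 - b2))
      + 16 * Q D (c1 - c0)
      - 2 * (Q D (a0 + b0 + c0) + Q D (a0 + b0 + c1) + Q D (a0 + b1 + c0) + Q D (a0 + b1 + c1) + Q D (a0 + b2 + c0) + Q D (a0 + b2 + c1) + Q D (a0 + b3 + c0) + Q D (a0 + b3 + c1) + Q D (a1 + b0 + c0) + Q D (a1 + b0 + c1) + Q D (a1 + b1 + c0) + Q D (a1 + b1 + c1) + Q D (a1 + b2 + c0) + Q D (a1 + b2 + c1) + Q D (a1 + b3 + c0) + Q D (a1 + b3 + c1) + Q D (a2 + b0 + c0) + Q D (a2 + b0 + c1) + Q D (a2 + b1 + c0) + Q D (a2 + b1 + c1) + Q D (a2 + b2 + c0) + Q D (a2 + b2 + c1)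 + Q D (a2 + b3 + c0) + Q D (a2 + b3 + c1) + Q D (a3 + b0 + c0) + Q D (a3 + b0 + c1) + Q D (a3 + b1 + c0) + Q D (a3 + b1 + c1) + Q D (a3 + b2 + c0) + Q D (a3 + b2 + c1) + Q D (a3 + b3 + c0) + Q D (a3 + b3 + c1))
      - (Q D (a0 + a1 + b0 + b1 + c0 + c1) + Q D (a0 + a1 + b0 + b2 + c0 + c1) + Q D (a0 + a1 + b0 + b3 + c0 + c1) + Q D (a0 + a1 + b1 + b2 + c0 + c1) + Q D (a0 + a1 + b1 + b3 + c0 + c1) + Q D (a0 + a1 + b2 + b3 + c0 + c1) + Q D (a0 + a2 + b0 + b1 + c0 + c1) + Q D (a0 + a2 + b0 + b2 + c0 + c1) + Q D (a0 + a2 + b0 + b3 + c0 + c1) + Q D (a0 + a2 + b1 + b2 + c0 + c1) + Q D (a0 + a2 + b1 + b3 + c0 + c1) + Q D (a0 + a2 + b2 + b3 + c0 + c1) + Q D (a0 + a3 + b0 + b1 + c0 + c1) + Q D (a0 + a3 + b0 + b2 + c0 + c1) + Q D (a0 + a3 + b0 + b3 + c0 + c1) + Q D (a0 + a3 + b1 + b2 + c0 + c1) + Q D (a0 + a3 + b1 + b3 + c0 + c1) + Q D (a0 + a3 +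 b2 + b3 + c0 + c1) + Q D (a1 + a2 + b0 + b1 + c0 + c1) + Q D (a1 + a2 + b0 + b2 + c0 + c1) + Q D (a1 + a2 + b0 + b3 + c0 + c1) + Q D (a1 + a2 + b1 + b2 + c0 + c1) + Q D (a1 + a2 + b1 + b3 + c0 + c1) + Q D (a1 + a2 + b2 + b3 + c0 + c1) + Q D (a1 + a3 + b0 + b1 + c0 + c1) + Q D (a1 + a3 + b0 + b2 + c0 + c1) + Q D (a1 + a3 + b0 + b3 + c0 + c1) + Q D (a1 + a3 + b1 + b2 + c0 + c1) + Q D (a1 + a3 + b1 + b3 + c0 + c1) + Q D (a1 + a3 + b2 + b3 + c0 + c1) + Q D (a2 + a3 + b0 + b1 + c0 + c1) + Q D (a2 + a3 + b0 + b2 + c0 + c1) + Q D (a2 + a3 + b0 + b3 + c0 + c1) + Q D (a2 + a3 + b1 + b2 + c0 + c1) + Q D (a2 + a3 + b1 + b3 + c0 + c1) + Q D (a2 + a3 + b2 + b3 + c0 + c1)) < 0 := by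
  have hD' : (0 : ℤ) < D := by exact_mod_cast hD
  have key := e7_abs hs ga0 ga1 ga2 ga3 gb0 gb1 gb2 gb3 gc0 gc1 f010 f011 f030 f031 f100 f101 f120 f121 f210 f211 f230 f231 f300 f301 f320 f321 k0113 k0203 k0212 k0302 k1202 k1301 k1323 k2313 hg
  have qa01 := Q_of hD (a1 - a0) (by linarith) (by linarith)
  have qa02 := Q_of hD (a2 - a0) (by linarith) (by linarith)
  have qa03 := Q_of hD (a3 - a0) (by linarith) (by linarith)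
  have qa12 := Q_of hD (a2 - a1) (by linarith) (by linarith)
  have qa13 := Q_of hD (a3 - a1) (by linarith) (by linarith)
  have qa23 := Q_of hD (a3 - a2) (by linarith) (by linarith)
  have qb01 := Q_of hD (b1 - b0) (by linarith) (by linarith)
  have qb02 := Q_of hD (b2 - b0) (by linarith) (by linarith)
  have qb03 := Q_of hD (b3 - b0) (by linarith) (by linarith)
  have qb12 := Q_of hD (b2 - b1) (by linarith) (by linarith)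
  have qb13 := Q_of hD (b3 - b1) (by linarith) (by linarith)
  have qb23 := Q_of hD (b3 - b2) (by linarith) (by linarith)
  have qc := Q_of hD (c1 - c0) (by linarith) (by linarith)
  have e000 := Q_ofm hD (a0 + b0 + c0) (by linarith) (by linarith)
  have e001 := Q_of' hD (a0 + b0 + c1) (by linarith) (by linarith)
  have e010 := Q_of' hD (a0 + b1 + c0) (by linarith) (by linarith)
  have e011 := Q_of' hD (a0 + b1 + c1) (by linarith) (by linarith)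
  have e020 := Q_of' hD (a0 + b2 + c0) (by linarith) (by linarith)
  have e021 := Q_of0 hD (a0 + b2 + c1) (by linarith) (by linarith)
  have e030 := Q_of' hD (a0 + b3 + c0) (by linarith) (by linarith)
  have e031 := Q_of hD (a0 + b3 + c1) (by linarith) (by linarith)
  have e100 := Q_of' hD (a1 + b0 + c0) (by linarith) (by linarith)
  have e101 := Q_of' hD (a1 + b0 + c1) (by linarith) (by linarith)
  have e110 := Q_of' hD (a1 + b1 + c0) (by linarith) (by linarith)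
  have e111 := Q_of0 hD (a1 + b1 + c1) (by linarith) (by linarith)
  have e120 := Q_of' hD (a1 + b2 + c0) (by linarith) (by linarith)
  have e121 := Q_of hD (a1 + b2 + c1) (by linarith) (by linarith)
  have e130 := Q_of0 hD (a1 + b3 + c0) (by linarith) (by linarith)
  have e131 := Q_of hD (a1 + b3 + c1) (by linarith) (by linarith)
  have e200 := Q_of' hD (a2 + b0 + c0) (by linarith) (by linarith)
  have e201 := Q_of0 hD (a2 + b0 + c1) (by linarith) (by linarith)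
  have e210 := Q_of' hD (a2 + b1 + c0) (by linarith) (by linarith)
  have e211 := Q_of hD (a2 + b1 + c1) (by linarith) (by linarith)
  have e220 := Q_of0 hD (a2 + b2 + c0) (by linarith) (by linarith)
  have e221 := Q_of hD (a2 + b2 + c1) (by linarith) (by linarith)
  have e230 := Q_of hD (a2 + b3 + c0) (by linarith) (by linarith)
  have e231 := Q_of hD (a2 + b3 + c1) (by linarith) (by linarith)
  have e300 := Q_of' hD (a3 + b0 + c0) (by linarith) (by linarith)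
  have e301 := Q_of hD (a3 + b0 + c1) (by linarith) (by linarith)
  have e310 := Q_of0 hD (a3 + b1 + c0) (by linarith) (by linarith)
  have e311 := Q_of hD (a3 + b1 + c1) (by linarith) (by linarith)
  have e320 := Q_of hD (a3 + b2 + c0) (by linarith) (by linarith)
  have e321 := Q_of hD (a3 + b2 + c1) (by linarith) (by linarith)
  have e330 := Q_of hD (a3 + b3 + c0) (by linarith) (by linarith)
  have e331 := Q_ofp hD (a3 + b3 + c1) (by linarith) (by linarith)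
  have u0102 := Q_of' hD (a0 + a1 + b0 + b2 + c0 + c1) (by linarith) (by linarith)
  have v0102 : Q D (a2 + a3 + b1 + b3 + c0 + c1) = Q D (a0 + a1 + b0 + b2 + c0 + c1) := by
    rw [← Q_neg hD (a0 + a1 + b0 + b2 + c0 + c1)]; congr 1; linarith
  have u0103 := Q_of' hD (a0 + a1 + b0 + b3 + c0 + c1) (by linarith) (by linarith)
  have v0103 : Q D (a2 + a3 + b1 + b2 + c0 + c1) = Q D (a0 + a1 + b0 + b3 + c0 + c1) := by
    rw [← Q_neg hD (a0 + a1 + b0 + b3 + c0 + c1)]; congr 1; linarith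
  have u0112 := Q_of' hD (a0 + a1 + b1 + b2 + c0 + c1) (by linarith) (by linarith)
  have v0112 : Q D (a2 + a3 + b0 + b3 + c0 + c1) = Q D (a0 + a1 + b1 + b2 + c0 + c1) := by
    rw [← Q_neg hD (a0 + a1 + b1 + b2 + c0 + c1)]; congr 1; linarith
  have u0113 := Q_of' hD (a0 + a1 + b1 + b3 + c0 + c1) (by linarith) (by linarith)
  have v0113 : Q D (a2 + a3 + b0 + b2 + c0 + c1) = Q D (a0 + a1 + b1 + b3 + c0 + c1) := by
    rw [← Q_neg hD (a0 + a1 + b1 + b3 + c0 + c1)]; congr 1; linarith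
  have u0123 := Q_of0 hD (a0 + a1 + b2 + b3 + c0 + c1) (by linarith) (by linarith)
  have v0123 : Q D (a2 + a3 + b0 + b1 + c0 + c1) = Q D (a0 + a1 + b2 + b3 + c0 + c1) := by
    rw [← Q_neg hD (a0 + a1 + b2 + b3 + c0 + c1)]; congr 1; linarith
  have u0201 := Q_of' hD (a0 + a2 + b0 + b1 + c0 + c1) (by linarith) (by linarith)
  have v0201 : Q D (a1 + a3 + b2 + b3 + c0 + c1) = Q D (a0 + a2 + b0 + b1 + c0 + c1) := by
    rw [← Q_neg hD (a0 + a2 + b0 + b1 + c0 + c1)]; congr 1; linarith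
  have u0202 := Q_of' hD (a0 + a2 + b0 + b2 + c0 + c1) (by linarith) (by linarith)
  have v0202 : Q D (a1 + a3 + b1 + b3 + c0 + c1) = Q D (a0 + a2 + b0 + b2 + c0 + c1) := by
    rw [← Q_neg hD (a0 + a2 + b0 + b2 + c0 + c1)]; congr 1; linarith
  have u0203 := Q_of' hD (a0 + a2 + b0 + b3 + c0 + c1) (by linarith) (by linarith)
  have v0203 : Q D (a1 + a3 + b1 + b2 + c0 + c1) = Q D (a0 + a2 + b0 + b3 + c0 + c1) := by
    rw [← Q_neg hD (a0 + a2 + b0 + b3 + c0 + c1)]; congr 1; linarith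
  have u0212 := Q_of' hD (a0 + a2 + b1 + b2 + c0 + c1) (by linarith) (by linarith)
  have v0212 : Q D (a1 + a3 + b0 + b3 + c0 + c1) = Q D (a0 + a2 + b1 + b2 + c0 + c1) := by
    rw [← Q_neg hD (a0 + a2 + b1 + b2 + c0 + c1)]; congr 1; linarith
  have u0213 := Q_of0 hD (a0 + a2 + b1 + b3 + c0 + c1) (by linarith) (by linarith)
  have v0213 : Q D (a1 + a3 + b0 + b2 + c0 + c1) = Q D (a0 + a2 + b1 + b3 + c0 + c1) := by
    rw [← Q_neg hD (a0 + a2 + b1 + b3 + c0 + c1)]; congr 1; linarith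
  have u0301 := Q_of' hD (a0 + a3 + b0 + b1 + c0 + c1) (by linarith) (by linarith)
  have v0301 : Q D (a1 + a2 + b2 + b3 + c0 + c1) = Q D (a0 + a3 + b0 + b1 + c0 + c1) := by
    rw [← Q_neg hD (a0 + a3 + b0 + b1 + c0 + c1)]; congr 1; linarith
  have u0302 := Q_of' hD (a0 + a3 + b0 + b2 + c0 + c1) (by linarith) (by linarith)
  have v0302 : Q D (a1 + a2 + b1 + b3 + c0 + c1) = Q D (a0 + a3 + b0 + b2 + c0 + c1) := by
    rw [← Q_neg hD (a0 + a3 + b0 + b2 + c0 + c1)]; congr 1; linarith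
  have u0312 := Q_of0 hD (a0 + a3 + b1 + b2 + c0 + c1) (by linarith) (by linarith)
  have v0312 : Q D (a1 + a2 + b0 + b3 + c0 + c1) = Q D (a0 + a3 + b1 + b2 + c0 + c1) := by
    rw [← Q_neg hD (a0 + a3 + b1 + b2 + c0 + c1)]; congr 1; linarith
  have u1201 := Q_of' hD (a1 + a2 + b0 + b1 + c0 + c1) (by linarith) (by linarith)
  have v1201 : Q D (a0 + a3 + b2 + b3 + c0 + c1) = Q D (a1 + a2 + b0 + b1 + c0 + c1) := by
    rw [← Q_neg hD (a1 + a2 + b0 + b1 + c0 + c1)]; congr 1; linarith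
  have u1202 := Q_of' hD (a1 + a2 + b0 + b2 + c0 + c1) (by linarith) (by linarith)
  have v1202 : Q D (a0 + a3 + b1 + b3 + c0 + c1) = Q D (a1 + a2 + b0 + b2 + c0 + c1) := by
    rw [← Q_neg hD (a1 + a2 + b0 + b2 + c0 + c1)]; congr 1; linarith
  have u1212 := Q_of0 hD (a1 + a2 + b1 + b2 + c0 + c1) (by linarith) (by linarith)
  have v1212 : Q D (a0 + a3 + b0 + b3 + c0 + c1) = Q D (a1 + a2 + b1 + b2 + c0 + c1) := by
    rw [← Q_neg hD (a1 + a2 + b1 + b2 + c0 + c1)]; congr 1; linarith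
  have u1301 := Q_of' hD (a1 + a3 + b0 + b1 + c0 + c1) (by linarith) (by linarith)
  have v1301 : Q D (a0 + a2 + b2 + b3 + c0 + c1) = Q D (a1 + a3 + b0 + b1 + c0 + c1) := by
    rw [← Q_neg hD (a1 + a3 + b0 + b1 + c0 + c1)]; congr 1; linarith
  have u2323 := Q_ofp hD (a2 + a3 + b2 + b3 + c0 + c1) (by linarith) (by linarith)
  have v2323 : Q D (a0 + a1 + b0 + b1 + c0 + c1) = Q D (a2 + a3 + b2 + b3 + c0 + c1) := by
    rw [← Q_neg hD (a2 + a3 + b2 + b3 + c0 + c1)]; congr 1; linarith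
  have h3 := mul_lt_mul_of_pos_left key hD'
  have hc : b3 = -(a0 + a1 + a2 + a3 + b0 + b1 + b2 + 2 * c0 + 2 * c1) := by linarith
  have h4 : 7 * (Q D (a1 - a0) + Q D (a2 - a0) + Q D (a3 - a0) + Q D (a2 - a1) + Q D (a3 - a1) + Q D (a3 - a2) + Q D (b1 - b0) + Q D (b2 - b0) + Q D (b3 - b0) + Q D (b2 - b1) + Q D (b3 - b1) + Q D (b3 - b2))
      + 16 * Q D (c1 - c0)
      - 2 * (Q D (a0 + b0 + c0) + Q D (a0 + b0 + c1) + Q D (a0 + b1 + c0) + Q D (a0 + b1 + c1) + Q D (a0 + b2 + c0) + Q D (a0 + b2 + c1) + Q D (a0 + b3 + c0) + Q D (a0 + b3 + c1) + Q D (a1 + b0 + c0) + Q D (a1 + b0 + c1) + Q D (a1 + b1 + c0) + Q D (a1 + b1 + c1) + Q D (a1 + b2 + c0) + Q D (a1 + b2 + c1) + Q D (a1 + b3 + c0) + Q D (a1 + b3 + c1) + Q D (a2 + b0 + c0) + Q D (a2 + b0 + c1) + Q D (a2 + b1 + c0) + Q D (a2 + b1 + c1) + Q D (a2 + b2 + c0) + Q D (a2 + b2 + c1) + Q D (a2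 + b3 + c0) + Q D (a2 + b3 + c1) + Q D (a3 + b0 + c0) + Q D (a3 + b0 + c1) + Q D (a3 + b1 + c0) + Q D (a3 + b1 + c1) + Q D (a3 + b2 + c0) + Q D (a3 + b2 + c1) + Q D (a3 + b3 + c0) + Q D (a3 + b3 + c1))
      - (Q D (a0 + a1 + b0 + b1 + c0 + c1) + Q D (a0 + a1 + b0 + b2 + c0 + c1) + Q D (a0 + a1 + b0 + b3 + c0 + c1) + Q D (a0 + a1 + b1 + b2 + c0 + c1) + Q D (a0 + a1 + b1 + b3 + c0 + c1) + Q D (a0 + a1 + b2 + b3 + c0 + c1) + Q D (a0 + a2 + b0 + b1 + c0 + c1) + Q D (a0 + a2 + b0 + b2 + c0 + c1) + Q D (a0 + a2 + b0 + b3 + c0 + c1) + Q D (a0 + a2 + b1 + b2 + c0 + c1) + Q D (a0 + a2 + b1 + b3 + c0 + c1) + Q D (a0 + a2 + b2 + b3 + c0 + c1) + Q D (a0 + a3 + b0 + b1 + c0 + c1) + Q D (a0 + a3 + b0 + b2 + c0 + c1) + Q D (a0 + a3 + b0 + b3 + c0 + c1) + Q D (a0 + a3 + b1 + b2 + c0 + c1) + Q D (a0 + a3 + b1 + b3 + c0 + c1) + Q D (a0 + a3 + b2 + b3 +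 c0 + c1) + Q D (a1 + a2 + b0 + b1 + c0 + c1) + Q D (a1 + a2 + b0 + b2 + c0 + c1) + Q D (a1 + a2 + b0 + b3 + c0 + c1) + Q D (a1 + a2 + b1 + b2 + c0 + c1) + Q D (a1 + a2 + b1 + b3 + c0 + c1) + Q D (a1 + a2 + b2 + b3 + c0 + c1) + Q D (a1 + a3 + b0 + b1 + c0 + c1) + Q D (a1 + a3 + b0 + b2 + c0 + c1) + Q D (a1 + a3 + b0 + b3 + c0 + c1) + Q D (a1 + a3 + b1 + b2 + c0 + c1) + Q D (a1 + a3 + b1 + b3 + c0 + c1) + Q D (a1 + a3 + b2 + b3 + c0 + c1) + Q D (a2 + a3 + b0 + b1 + c0 + c1) + Q D (a2 + a3 + b0 + b2 + c0 + c1) + Q D (a2 + a3 + b0 + b3 + c0 + c1) + Q D (a2 + a3 + b1 + b2 + c0 + c1) + Q D (a2 + a3 + b1 + b3 + c0 + c1) + Q D (a2 + a3 + b2 + b3 + c0 + c1)) =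
      2 * (D : ℤ) * (|a3 + b1 + c0| + |a0 + b2 + c1| + |a1 + b3 + c0| + |a2 + b0 + c1| + |a0 + a3 + b1 + b2 + c0 + c1| + |a0 + a1 + b2 + b3 + c0 + c1| + |a1 + b1 + c1| + |a2 + b2 + c0| + |a3 + b3 + c1 - (D : ℤ)| + |a0 + b0 + c0 + (D : ℤ)| + |a1 + a2 + b1 + b2 + c0 + c1| + |a2 + a3 + b2 + b3 + c0 + c1 - (D : ℤ)| + |a0 + a2 + b1 + b3 + c0 + c1|) - 6 * (D : ℤ) ^ 2 := by
    subst hc
    linear_combination 7 * qa01 + 7 * qa02 + 7 * qa03 + 7 * qa12 + 7 * qa13 + 7 * qa23 + 7 * qb01 + 7 * qb02 + 7 * qb03 + 7 * qb12 + 7 * qb13 + 7 * qb23 + 16 * qc + (-2) * e000 + (-2) * e001 + (-2) * e010 + (-2) * e011 + (-2) * e020 + (-2) * e021 + (-2) * e030 + (-2) * e031 + (-2) * e100 + (-2) * e101 + (-2) * e110 + (-2) * e111 + (-2) * e120 + (-2) * e121 + (-2) * e130 + (-2) * e131 + (-2) * e200 + (-2) * e201 + (-2) * e210 + (-2) * e211 + (-2) * e220 + (-2)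 * e221 + (-2) * e230 + (-2) * e231 + (-2) * e300 + (-2) * e301 + (-2) * e310 + (-2) * e311 + (-2) * e320 + (-2) * e321 + (-2) * e330 + (-2) * e331 + (-2) * u0102 + (-2) * u0103 + (-2) * u0112 + (-2) * u0113 + (-2) * u0123 + (-2) * u0201 + (-2) * u0202 + (-2) * u0203 + (-2) * u0212 + (-2) * u0213 + (-2) * u0301 + (-2) * u0302 + (-2) * u0312 + (-2) * u1201 + (-2) * u1202 + (-2) * u1212 + (-2) * u1301 + (-2) * u2323 + (-1) * v0102 + (-1) * v0103 + (-1) * v0112 + (-1) * v0113 + (-1) * v0123 + (-1) * v0201 + (-1) * v0202 + (-1) * v0203 + (-1) * v0212 + (-1) * v0213 + (-1) * v0301 + (-1) * v0302 + (-1) * v0312 + (-1) * v1201 + (-1) * v1202 + (-1) * v1212 + (-1) * v1301 + (-1) * v2323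
  rw [h4]
  linarith [h3]

end Pool.Agent.W280.PE
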