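import Pool.Agent.W280.PE.Point7
import Pool.Agent.W280.PC.Arith3

set_option autoImplicit false
set_option maxHeartbeats 4000000

/-!
The symmetric expression for rank four.
-/

namespace Pool.Agent.W280.PE

open Finset Pool.Agent.W280.PC

/-- the indicator of `i ≠ i'` -/
def dl (i i' : Fin 4) : ℤ := if i = i' then 0 else 1

/-- the symmetric expression -/
def Psi (S : ℤ → ℤ) (x y : Fin 4 → ℤ) (u v : ℤ) : ℤ :=
  14 * (∑ i, ∑ i', S (x i - x i')) + 14 * (∑ i, ∑ i', S (y i - y i')) + 64 * S (u - v) -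
  8 * (∑ i, ∑ k, (S (x i + y k + u) + S (x i + y k + v))) -
  ∑ i, ∑ i', ∑ k, ∑ k', dl i i' * dl k k' * S (x i + x i' + (y k + y k') + (u + v))

lemma dl_perm (σ : Equiv.Perm (Fin 4)) (i i' : Fin 4) : dl (σ i) (σ i') = dl i i' := by
  unfold dl
  simp only [σ.injective.eq_iff]

lemma sum2_perm (σ : Equiv.Perm (Fin 4)) (g : Fin 4 → Fin 4 → ℤ) :
    ∑ i, ∑ i', g (σ i) (σ i') = ∑ i, ∑ i', g i i' := by
  rw [← Equiv.sum_comp σ (fun i => ∑ i', g i i')]
  exact Finset.sum_congr rfl fun i _ => Equiv.sum_comp σ (fun i' => g (σ i) i')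

lemma Psi_permX (S : ℤ → ℤ) (x y : Fin 4 → ℤ) (u v : ℤ) (σ : Equiv.Perm (Fin 4)) :
    Psi S (fun i => x (σ i)) y u v = Psi S x y u v := by
  unfold Psi
  have h1 := sum2_perm σ (fun i i' => S (x i - x i'))
  have h2 := Equiv.sum_comp σ (fun i => ∑ k, (S (x i + y k + u) + S (x i + y k + v)))
  have h3 := sum2_perm σ (fun i i' => ∑ k, ∑ k', dl i i' * dl k k' *
    S (x i + x i' + (y k + y k') + (u + v)))
  simp only [dl_perm] at h3
  rw [h1, h2, h3]

lemma Psi_permY (S : ℤ → ℤ) (x y : Fin 4 → ℤ) (u v : ℤ) (σ : Equiv.Perm (Fin 4)) :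
    Psi S x (fun i => y (σ i)) u v = Psi S x y u v := by
  unfold Psi
  have h1 := sum2_perm σ (fun i i' => S (y i - y i'))
  have h2 : ∀ i, ∑ k, (S (x i + y (σ k) + u) + S (x i + y (σ k) + v)) =
      ∑ k, (S (x i + y k + u) + S (x i + y k + v)) := fun i =>
    Equiv.sum_comp σ (fun k => (S (x i + y k + u) + S (x i + y k + v)))
  have h3 : ∀ i i', ∑ k, ∑ k', dl i i' * dl k k' *
      S (x i + x i' + (y (σ k) + y (σ k')) + (u + v)) = ∑ k, ∑ k', dl i i' * dl k k' *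
      S (x i + x i' + (y k + y k') + (u + v)) := by
    intro i i'
    have := sum2_perm σ (fun k k' => dl i i' * dl k k' *
      S (x i + x i' + (y k + y k') + (u + v)))
    simp only [dl_perm] at this
    exact this
  rw [h1]
  simp only [h2, h3]

lemma Psi_congr {S : ℤ → ℤ} {N : ℤ} (hS : ∀ z z', N ∣ z - z' → S z = S z')
    {x x' y y' : Fin 4 → ℤ} {u u' v v' : ℤ} (hx : ∀ i, N ∣ x i - x' i) (hy : ∀ i, N ∣ y i - y' i)
    (hu : N ∣ u - u') (hv : N ∣ v - v') : Psi S x y u v = Psi S x' y' u' v' := by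
  have h1 : ∀ i i', S (x i - x i') = S (x' i - x' i') := fun i i' => hS _ _ (by
    have := dvd_sub (hx i) (hx i')
    rwa [show x i - x' i - (x i' - x' i') = x i - x i' - (x' i - x' i') by ring] at this)
  have h2 : ∀ i i', S (y i - y i') = S (y' i - y' i') := fun i i' => hS _ _ (by
    have := dvd_sub (hy i) (hy i')
    rwa [show y i - y' i - (y i' - y' i') = y i - y i' - (y' i - y' i') by ring] at this)
  have h3 : S (u - v) = S (u' - v') := hS _ _ (by
    have := dvd_sub hu hv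
    rwa [show u - u' - (v - v') = u - v - (u' - v') by ring] at this)
  have h4 : ∀ i k, S (x i + y k + u) = S (x' i + y' k + u') := fun i k => hS _ _ (by
    have := dvd_add (dvd_add (hx i) (hy k)) hu
    rwa [show x i - x' i + (y k - y' k) + (u - u') = x i + y k + u - (x' i + y' k + u') by ring]
      at this)
  have h5 : ∀ i k, S (x i + y k + v) = S (x' i + y' k + v') := fun i k => hS _ _ (by
    have := dvd_add (dvd_add (hx i) (hy k)) hv
    rwa [show x i - x' i + (y k - y' k) + (v - v') = x i + y k + v - (x' i + y' k + v') by ring]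
      at this)
  have h6 : ∀ i i' k k', S (x i + x i' + (y k + y k') + (u + v)) =
      S (x' i + x' i' + (y' k + y' k') + (u' + v')) := fun i i' k k' => hS _ _ (by
    have := dvd_add (dvd_add (dvd_add (hx i) (hx i')) (dvd_add (hy k) (hy k'))) (dvd_add hu hv)
    rwa [show x i - x' i + (x i' - x' i') + (y k - y' k + (y k' - y' k')) + (u - u' + (v - v')) =
      x i + x i' + (y k + y k') + (u + v) - (x' i + x' i' + (y' k + y' k') + (u' + v')) by ring]
      at this)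
  unfold Psi
  simp only [h1, h2, h3, h4, h5, h6]

lemma Psi_symm {S : ℤ → ℤ} (hS : ∀ z, S (-z) = S z) (x y : Fin 4 → ℤ) (u v : ℤ) :
    Psi S x y u v = Psi S x y v u := by
  unfold Psi
  rw [← hS (u - v), neg_sub]
  have h1 : ∀ i k, S (x i + y k + u) + S (x i + y k + v) =
      S (x i + y k + v) + S (x i + y k + u) := fun i k => add_comm _ _
  simp only [h1, add_comm u v]

lemma Psi_smul (S : ℤ → ℤ) (a : ℤ) (x y : Fin 4 → ℤ) (u v : ℤ) :
    Psi S (fun i => a * x i) (fun i => a * y i) (a * u) (a * v) =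
      Psi (fun z => S (a * z)) x y u v := by
  unfold Psi
  simp only [← mul_sub, ← mul_add]

/-- linearity -/
def PsiHom (x y : Fin 4 → ℤ) (u v : ℤ) : (ℤ → ℤ) →+ ℤ where
  toFun S := Psi S x y u v
  map_zero' := by simp [Psi]
  map_add' S S' := by
    unfold Psi
    simp only [Pi.add_apply, mul_add, Finset.sum_add_distrib]
    ring

lemma sum4_diff {S : ℤ → ℤ} (hS : ∀ z, S (-z) = S z) (h0 : S 0 = 0) (x : Fin 4 → ℤ) :
    ∑ i, ∑ i', S (x i - x i') = 2 * (S (x 1 - x 0) + S (x 2 - x 0) + S (x 3 - x 0) +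
      S (x 2 - x 1) + S (x 3 - x 1) + S (x 3 - x 2)) := by
  have h1 : ∀ i i', S (x i - x i') = S (x i' - x i) := fun i i' => by rw [← hS, neg_sub]
  simp only [Fin.sum_univ_four, sub_self, h0]
  rw [h1 0 1, h1 0 2, h1 0 3, h1 1 2, h1 1 3, h1 2 3]
  ring

lemma sum4_pair (f : ℤ → ℤ) (x : Fin 4 → ℤ) :
    ∑ i, ∑ i', dl i i' * f (x i + x i') = 2 * (f (x 0 + x 1) + f (x 0 + x 2) + f (x 0 + x 3) +
      f (x 1 + x 2) + f (x 1 + x 3) + f (x 2 + x 3)) := by
  have e1 : ∀ i : Fin 4, dl i i = 0 := fun i => by simp [dl]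
  have e2 : ∀ i i' : Fin 4, i ≠ i' → dl i i' = 1 := fun i i' h => by simp [dl, h]
  simp only [Fin.sum_univ_four, e1]
  rw [e2 0 1 (by decide), e2 0 2 (by decide), e2 0 3 (by decide), e2 1 0 (by decide),
    e2 1 2 (by decide), e2 1 3 (by decide), e2 2 0 (by decide), e2 2 1 (by decide),
    e2 2 3 (by decide), e2 3 0 (by decide), e2 3 1 (by decide), e2 3 2 (by decide),
    add_comm (x 1) (x 0), add_comm (x 2) (x 0), add_comm (x 3) (x 0), add_comm (x 2) (x 1),
    add_comm (x 3) (x 1), add_comm (x 3) (x 2)]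
  ring

lemma sum4_pairs (f : ℤ → ℤ) (x y : Fin 4 → ℤ) (w : ℤ) :
    ∑ i, ∑ i', ∑ k, ∑ k', dl i i' * dl k k' * f (x i + x i' + (y k + y k') + w) =
    4 * (
      (f (x 0 + x 1 + (y 0 + y 1) + w) + f (x 0 + x 1 + (y 0 + y 2) + w) +
       f (x 0 + x 1 + (y 0 + y 3) + w) + f (x 0 + x 1 + (y 1 + y 2) + w) +
       f (x 0 + x 1 + (y 1 + y 3) + w) + f (x 0 + x 1 + (y 2 + y 3) + w)) +
      (f (x 0 + x 2 + (y 0 + y 1) + w) + f (x 0 + x 2 + (y 0 + y 2) + w) +
       f (x 0 + x 2 + (y 0 + y 3) + w) + f (x 0 + x 2 + (y 1 + y 2) + w) +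
       f (x 0 + x 2 + (y 1 + y 3) + w) + f (x 0 + x 2 + (y 2 + y 3) + w)) +
      (f (x 0 + x 3 + (y 0 + y 1) + w) + f (x 0 + x 3 + (y 0 + y 2) + w) +
       f (x 0 + x 3 + (y 0 + y 3) + w) + f (x 0 + x 3 + (y 1 + y 2) + w) +
       f (x 0 + x 3 + (y 1 + y 3) + w) + f (x 0 + x 3 + (y 2 + y 3) + w)) +
      (f (x 1 + x 2 + (y 0 + y 1) + w) + f (x 1 + x 2 + (y 0 + y 2) + w) +
       f (x 1 + x 2 + (y 0 + y 3) + w) + f (x 1 + x 2 + (y 1 + y 2) + w) +
       f (x 1 + x 2 + (y 1 + y 3) + w) + f (x 1 + x 2 + (y 2 + y 3) + w)) +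
      (f (x 1 + x 3 + (y 0 + y 1) + w) + f (x 1 + x 3 + (y 0 + y 2) + w) +
       f (x 1 + x 3 + (y 0 + y 3) + w) + f (x 1 + x 3 + (y 1 + y 2) + w) +
       f (x 1 + x 3 + (y 1 + y 3) + w) + f (x 1 + x 3 + (y 2 + y 3) + w)) +
      (f (x 2 + x 3 + (y 0 + y 1) + w) + f (x 2 + x 3 + (y 0 + y 2) + w) +
       f (x 2 + x 3 + (y 0 + y 3) + w) + f (x 2 + x 3 + (y 1 + y 2) + w) +
       f (x 2 + x 3 + (y 1 + y 3) + w) + f (x 2 + x 3 + (y 2 + y 3) + w))) := by
  have h1 : ∀ i i', ∑ k, ∑ k', dl i i' * dl k k' * f (x i + x i' + (y k + y k') + w) =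
      dl i i' * (fun s => 2 * (f (s + (y 0 + y 1) + w) + f (s + (y 0 + y 2) + w) +
       f (s + (y 0 + y 3) + w) + f (s + (y 1 + y 2) + w) +
       f (s + (y 1 + y 3) + w) + f (s + (y 2 + y 3) + w))) (x i + x i') := by
    intro i i'
    have := sum4_pair (fun t => f (x i + x i' + t + w)) y
    dsimp only at this ⊢
    rw [← this, Finset.mul_sum]
    refine Finset.sum_congr rfl fun k _ => ?_
    rw [Finset.mul_sum]
    exact Finset.sum_congr rfl fun k' _ => by ring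
  simp only [h1]
  have h2 := sum4_pair (fun s => 2 * (f (s + (y 0 + y 1) + w) + f (s + (y 0 + y 2) + w) +
       f (s + (y 0 + y 3) + w) + f (s + (y 1 + y 2) + w) +
       f (s + (y 1 + y 3) + w) + f (s + (y 2 + y 3) + w))) x
  rw [h2]
  ring

end Pool.Agent.W280.PE
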