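import Pool.Agent.W280.PC.Leg

set_option autoImplicit false
set_option maxHeartbeats 4000000

/-!
Extended sequences and counting functions.
-/

namespace Pool.Agent.W280.PE

open Finset Pool.Agent.W280.PC

/-- the index `i mod r` -/
def im (r : ℕ) [NeZero r] (i : ℤ) : Fin r :=
  ⟨(i % r).toNat, by
    have hr : (0 : ℤ) < r := by exact_mod_cast Nat.pos_of_ne_zero (NeZero.ne r)
    have h1 := Int.emod_nonneg i hr.ne'
    have h2 := Int.emod_lt_of_pos i hr
    omega⟩

lemma im_val {r : ℕ} [NeZero r] (i : ℤ) : ((im r i : ℕ) : ℤ) = i % r := by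
  have hr : (0 : ℤ) < r := by exact_mod_cast Nat.pos_of_ne_zero (NeZero.ne r)
  have h1 := Int.emod_nonneg i hr.ne'
  simp only [im]
  exact Int.toNat_of_nonneg h1

lemma im_eq {r : ℕ} [NeZero r] {i : ℤ} {l : Fin r} (h : i % r = (l : ℕ)) : im r i = l := by
  apply Fin.ext
  have := im_val (r := r) i
  rw [h] at this
  exact_mod_cast this

lemma im_natCast {r : ℕ} [NeZero r] (l : Fin r) : im r ((l : ℕ) : ℤ) = l := by
  apply im_eq
  exact Int.emod_eq_of_lt (by positivity) (by exact_mod_cast l.isLt)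

/-- the extended sequence -/
def ext {r : ℕ} [NeZero r] (N : ℤ) (x : Fin r → ℤ) (i : ℤ) : ℤ := x (im r i) + N * (i / r)

section

variable {r : ℕ} [NeZero r] {N : ℤ} {x : Fin r → ℤ}

lemma ext_natCast (l : Fin r) : ext N x ((l : ℕ) : ℤ) = x l := by
  unfold ext
  rw [im_natCast, Int.ediv_eq_zero_of_lt (by positivity) (by exact_mod_cast l.isLt)]
  ring

lemma ext_add (i q : ℤ) : ext N x (i + r * q) = ext N x i + N * q := by
  have hr : (r : ℤ) ≠ 0 := by exact_mod_cast NeZero.ne r
  unfold ext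
  have h1 : im r (i + r * q) = im r i := by
    apply im_eq
    rw [Int.add_mul_emod_self_left, im_val]
  rw [h1, Int.add_mul_ediv_left _ _ hr]
  ring

/-- sortedness -/
def Srt {r : ℕ} (N : ℤ) (x : Fin r → ℤ) : Prop :=
  ∀ l l' : Fin r, (l ≤ l' → x l ≤ x l') ∧ x l' ≤ x l + N

/-- the counting function -/
def cnt {r : ℕ} (N : ℤ) (x : Fin r → ℤ) (v : ℤ) : ℤ := ∑ l, (v - x l) / N + (r - 1)

lemma ext_le_iff (hN : 0 < N) (hx : Srt N x) (i v : ℤ) : ext N x i ≤ v ↔ i ≤ cnt N x v := by
  have hr : (0 : ℤ) < r := by exact_mod_cast Nat.pos_of_ne_zero (NeZero.ne r)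
  set s := im r i with hs
  set q := i / r with hq
  have hi : i = r * q + (s : ℕ) := by
    rw [hs, im_val, hq]
    exact (Int.mul_ediv_add_emod i r).symm
  set b : Fin r → ℤ := fun l => (v - x l) / N with hb
  have hb1 : ∀ l l' : Fin r, l ≤ l' → b l' ≤ b l := fun l l' h =>
    Int.ediv_le_ediv hN (by linarith [(hx l l').1 h])
  have hb2 : ∀ l l' : Fin r, b l ≤ b l' + 1 := by
    intro l l'
    have h1 : (v - x l') / N + 1 = (v - x l' + N) / N := by
      rw [Int.add_ediv_of_dvd_right (dvd_refl N), Int.ediv_self hN.ne']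
    simp only [hb]
    rw [h1]
    exact Int.ediv_le_ediv hN (by linarith [(hx l l').2])
  have h1 : ext N x i ≤ v ↔ q ≤ b s := by
    simp only [ext, hb, ← hs, ← hq]
    rw [Int.le_ediv_iff_mul_le hN]
    constructor <;> intro h <;> nlinarith
  have hcard1 : ((Finset.univ.filter fun l : Fin r => l ≤ s).card : ℤ) = (s : ℕ) + 1 := by
    have : (Finset.univ.filter fun l : Fin r => l ≤ s) = Finset.Iic s := by
      ext l; simp
    rw [this, Fin.card_Iic]
    push_cast; ring
  have hcard2 : ((Finset.univ.filter fun l : Fin r => l < s).card : ℤ) = (s : ℕ) := by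
    have : (Finset.univ.filter fun l : Fin r => l < s) = Finset.Iio s := by
      ext l; simp
    rw [this, Fin.card_Iio]
  rw [h1]
  have hcnt : cnt N x v = ∑ l, b l + (r - 1) := rfl
  rw [hcnt, hi]
  constructor
  · intro h
    have h2 : ∑ l : Fin r, ((q - 1) + (if l ≤ s then 1 else 0)) ≤ ∑ l, b l := by
      refine Finset.sum_le_sum fun l _ => ?_
      split_ifs with h3
      · linarith [hb1 l s h3]
      · linarith [hb2 s l]
    rw [Finset.sum_add_distrib, Finset.sum_const, Finset.card_univ, Fintype.card_fin,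
      Finset.sum_boole, hcard1, nsmul_eq_mul] at h2
    linarith
  · intro h
    by_contra hcon
    push Not at hcon
    have h2 : ∑ l, b l ≤ ∑ l : Fin r, ((q - 1) + (if l < s then 1 else 0)) := by
      refine Finset.sum_le_sum fun l _ => ?_
      split_ifs with h3
      · linarith [hb2 l s]
      · linarith [hb1 s l (not_lt.mp h3)]
    rw [Finset.sum_add_distrib, Finset.sum_const, Finset.card_univ, Fintype.card_fin,
      Finset.sum_boole, hcard2, nsmul_eq_mul] at h2
    linarith

lemma ext_mono (hN : 0 < N) (hx : Srt N x) {i j : ℤ} (h : i ≤ j) : ext N x i ≤ ext N x j := by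
  rw [ext_le_iff hN hx]
  exact h.trans ((ext_le_iff hN hx j _).1 le_rfl)

/-- The reversed sequence. -/
lemma ext_neg (hN : 0 < N) (hx : Srt N x) {y : Fin r → ℤ} (hy : Srt N y) {T : ℤ}
    (hT : ∀ v, ∑ l, (v - y l) / N = ∑ l, (v + x l) / N - T) (i : ℤ) :
    ext N y i = -ext N x ((r - 1) - T - i) := by
  have key : ∀ v, ext N y i ≤ v ↔ -ext N x ((r - 1) - T - i) ≤ v := by
    intro v
    have h1 : -ext N x ((r - 1) - T - i) ≤ v ↔ ¬ (ext N x ((r - 1) - T - i) ≤ -v - 1) := by
      constructor <;> intro h <;> omega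
    rw [ext_le_iff hN hy, h1, ext_le_iff hN hx]
    unfold cnt
    rw [hT v]
    have h2 : ∑ l, (-v - 1 - x l) / N = -∑ l, (v + x l) / N - r := by
      have h3 : ∀ l, (-v - 1 - x l) / N = -((v + x l) / N) - 1 := by
        intro l
        have h4 : -v - 1 - x l = -(v + x l + 1) := by ring
        rw [h4]
        have h5 := Int.mul_ediv_add_emod (v + x l) N
        have h6 := Int.emod_nonneg (v + x l) hN.ne'
        have h7 := Int.emod_lt_of_pos (v + x l) hN
        set qq := (v + x l) / N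
        set rr := (v + x l) % N
        rw [← h5]
        have h8 : -(N * qq + rr + 1) = (N - 1 - rr) + N * (-qq - 1) := by ring
        rw [h8, Int.add_mul_ediv_left _ _ hN.ne', Int.ediv_eq_zero_of_lt (by omega) (by omega)]
        ring
      simp only [h3]
      rw [Finset.sum_sub_distrib, Finset.sum_neg_distrib]
      simp
    rw [h2]
    constructor <;> intro h <;> omega
  have h1 := (key (ext N y i)).1 le_rfl
  have h2 := (key (-ext N x ((r - 1) - T - i))).2 le_rfl
  linarith

/-- Blocks of equal terms. -/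
lemma ext_block (hN : 0 < N) (hx : Srt N x) {d : ℕ} (hd : 0 < d) {T0 : ℤ} {g : ℤ → ℤ}
    (hg : ∀ v, ∑ l, (v - x l) / N = d * g v + T0) :
    ∃ s : ℤ, ∀ t i j : ℤ, 0 ≤ i → i < d → 0 ≤ j → j < d →
      ext N x (s + d * t + i) = ext N x (s + d * t + j) := by
  have hd' : (0 : ℤ) < d := by exact_mod_cast hd
  refine ⟨T0 + r, ?_⟩
  have key : ∀ t i j v : ℤ, 0 ≤ i → i < d → 0 ≤ j → j < d →
      ext N x (T0 + r + d * t + i) ≤ v → ext N x (T0 + r + d * t + j) ≤ v := by
    intro t i j v hi hi' hj hj' h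
    rw [ext_le_iff hN hx] at h ⊢
    unfold cnt at h ⊢
    rw [hg v] at h ⊢
    have h1 : (d : ℤ) * t < d * g v := by linarith
    have h2 : t < g v := lt_of_mul_lt_mul_left h1 hd'.le
    have h3 : (d : ℤ) * (t + 1) ≤ d * g v := mul_le_mul_of_nonneg_left (by omega) hd'.le
    linarith
  intro t i j hi hi' hj hj'
  exact le_antisymm (key t j i _ hj hj' hi hi' le_rfl) (key t i j _ hi hi' hj hj' le_rfl)

end

end Pool.Agent.W280.PE
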